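import Mathlib

/-!
Planar basics: cross product, areas of triangles and quadrilaterals.
-/

open MeasureTheory Set
open scoped ENNReal

namespace Pool.Agent.NH81.Quad

/-- the cross product of two plane vectors -/
def cr (p q : ℝ × ℝ) : ℝ := p.1 * q.2 - p.2 * q.1

/-- twice the oriented area of a triangle -/
def tri (p q r : ℝ × ℝ) : ℝ := cr (q - p) (r - p)

/-- the linear map with columns `u`, `w` -/
noncomputable def LM (u w : ℝ × ℝ) : (ℝ × ℝ) →ₗ[ℝ] (ℝ × ℝ) where
  toFun z := z.1 • u + z.2 • w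
  map_add' := by
    intro a b
    ext <;> simp <;> ring
  map_smul' := by
    intro c a
    ext <;> simp <;> ring

@[simp] lemma LM_apply (u w z : ℝ × ℝ) : LM u w z = z.1 • u + z.2 • w := rfl

lemma LM_det (u w : ℝ × ℝ) : LinearMap.det (LM u w) = cr u w := by
  rw [← LinearMap.det_toMatrix (Module.Basis.finTwoProd ℝ)]
  rw [Matrix.det_fin_two]
  simp [LinearMap.toMatrix_apply, cr]
  ring

lemma volume_LM_image (u w : ℝ × ℝ) (S : Set (ℝ × ℝ)) :
    volume (LM u w '' S) = ENNReal.ofReal |cr u w| * volume S := by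
  rw [Measure.addHaar_image_linearMap, LM_det]

/-- affine map -/
noncomputable def aff (O u w : ℝ × ℝ) (z : ℝ × ℝ) : ℝ × ℝ := O + (z.1 • u + z.2 • w)

lemma aff_image (O u w : ℝ × ℝ) (S : Set (ℝ × ℝ)) :
    aff O u w '' S = (fun x => O + x) '' (LM u w '' S) := by
  rw [← image_comp]; rfl

lemma volume_aff_image (O u w : ℝ × ℝ) (S : Set (ℝ × ℝ)) :
    volume (aff O u w '' S) = ENNReal.ofReal |cr u w| * volume S := by
  rw [aff_image, Set.image_add_left, measure_preimage_add, volume_LM_image]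

/-- the open standard simplex -/
def simp0 : Set (ℝ × ℝ) := {z | 0 < z.1 ∧ 0 < z.2 ∧ z.1 + z.2 < 1}

lemma volume_simp0 : volume simp0 = ENNReal.ofReal (1 / 2) := by
  have h1 : simp0 = regionBetween (fun _ => (0 : ℝ)) (fun x => 1 - x) (Ioo 0 1) := by
    ext ⟨x, y⟩
    simp only [simp0, regionBetween, mem_ofPred_eq, mem_Ioo]
    constructor
    · rintro ⟨a, b, c⟩; exact ⟨⟨a, by linarith⟩, b, by linarith⟩
    · rintro ⟨⟨a, _⟩, b, c⟩; exact ⟨a, b, by linarith⟩
  rw [h1, Measure.volume_eq_prod, volume_regionBetween_eq_integral]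
  · congr 1
    rw [← integral_Ioc_eq_integral_Ioo, ← intervalIntegral.integral_of_le (by norm_num)]
    simp only [Pi.sub_apply, sub_zero]
    rw [intervalIntegral.integral_sub (by simp) (by simp)]
    simp
    norm_num
  · exact (continuous_const.integrableOn_Icc).mono_set Ioo_subset_Icc_self
  · exact ((continuous_const.sub continuous_id).integrableOn_Icc (a := (0 : ℝ)) (b := 1)).mono_set
      Ioo_subset_Icc_self
  · exact measurableSet_Ioo
  · intro x hx; simp only [mem_Ioo] at hx; simp; linarith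

/-- the closed standard simplex -/
def simp1 : Set (ℝ × ℝ) := {z | 0 ≤ z.1 ∧ 0 ≤ z.2 ∧ z.1 + z.2 ≤ 1}

lemma convex_simp0 : Convex ℝ simp0 := by
  intro x hx y hy a b ha hb hab
  obtain ⟨h1, h2, h3⟩ := hx
  obtain ⟨k1, k2, k3⟩ := hy
  simp only [simp0, mem_ofPred_eq, Prod.fst_add, Prod.snd_add, Prod.smul_fst, Prod.smul_snd,
    smul_eq_mul]
  rcases ha.eq_or_lt with ha | ha
  · subst ha
    have : b = 1 := by linarith
    subst this
    refine ⟨by linarith, by linarith, by linarith⟩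
  · refine ⟨by nlinarith [mul_pos ha h1, mul_nonneg hb k1.le], by
      nlinarith [mul_pos ha h2, mul_nonneg hb k2.le], ?_⟩
    have e1 : a * (x.1 + x.2) < a * 1 := mul_lt_mul_of_pos_left h3 ha
    have e2 : b * (y.1 + y.2) ≤ b * 1 := mul_le_mul_of_nonneg_left k3.le hb
    nlinarith

lemma simp1_subset_closure : simp1 ⊆ closure simp0 := by
  rintro ⟨x, y⟩ ⟨h1, h2, h3⟩
  simp only at h1 h2 h3
  have hc : Continuous (fun t : ℝ => ((x + t * (1/3 - x), y + t * (1/3 - y)) : ℝ × ℝ)) := by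
    fun_prop
  have hz : ((x + 0 * (1/3 - x), y + 0 * (1/3 - y)) : ℝ × ℝ) = (x, y) := by simp
  have ht : Filter.Tendsto (fun t : ℝ => ((x + t * (1/3 - x), y + t * (1/3 - y)) : ℝ × ℝ))
      (nhdsWithin 0 (Ioi 0)) (nhds (x, y)) := by
    rw [← hz]
    exact (hc.tendsto 0).mono_left nhdsWithin_le_nhds
  refine mem_closure_of_tendsto ht ?_
  have : Ioo (0 : ℝ) 1 ∈ nhdsWithin (0 : ℝ) (Ioi 0) := Ioo_mem_nhdsGT (by norm_num)
  filter_upwards [this] with t htt
  obtain ⟨t0, t1⟩ := htt
  refine ⟨?_, ?_, ?_⟩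
  · simp only; nlinarith [mul_nonneg (sub_nonneg.2 t1.le) h1]
  · simp only; nlinarith [mul_nonneg (sub_nonneg.2 t1.le) h2]
  · simp only; nlinarith [mul_nonneg (sub_nonneg.2 t1.le) (sub_nonneg.2 h3)]

lemma volume_simp1_le : volume simp1 ≤ ENNReal.ofReal (1 / 2) := by
  have h1 : simp1 ⊆ simp0 ∪ frontier simp0 := by
    intro z hz
    by_cases h : z ∈ simp0
    · exact Or.inl h
    · right
      refine ⟨simp1_subset_closure hz, fun h' => h (interior_subset h')⟩
  calc volume simp1 ≤ volume simp0 + volume (frontier simp0) :=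
        (measure_mono h1).trans (measure_union_le _ _)
    _ = ENNReal.ofReal (1 / 2) := by
        rw [convex_simp0.addHaar_frontier volume, add_zero, volume_simp0]

/-- open triangle -/
def oTri (p q r : ℝ × ℝ) : Set (ℝ × ℝ) := aff p (q - p) (r - p) '' simp0

lemma volume_oTri (p q r : ℝ × ℝ) :
    volume (oTri p q r) = ENNReal.ofReal (|tri p q r| / 2) := by
  rw [oTri, volume_aff_image, volume_simp0, ← ENNReal.ofReal_mul (abs_nonneg _), tri]
  congr 1
  ring

lemma mem_oTri {p q r x : ℝ × ℝ} : x ∈ oTri p q r ↔ ∃ a b : ℝ, 0 < a ∧ 0 < b ∧ a + b < 1 ∧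
    x = (1 - a - b) • p + a • q + b • r := by
  constructor
  · rintro ⟨⟨a, b⟩, ⟨h1, h2, h3⟩, rfl⟩
    refine ⟨a, b, h1, h2, h3, ?_⟩
    ext <;> simp [aff] <;> ring
  · rintro ⟨a, b, h1, h2, h3, rfl⟩
    refine ⟨(a, b), ⟨h1, h2, h3⟩, ?_⟩
    ext <;> simp [aff] <;> ring

lemma oTri_subset {K : Set (ℝ × ℝ)} (hK : Convex ℝ K) {p q r : ℝ × ℝ} (hp : p ∈ K) (hq : q ∈ K)
    (hr : r ∈ K) : oTri p q r ⊆ K := by
  intro x hx
  obtain ⟨a, b, h1, h2, h3, rfl⟩ := mem_oTri.1 hx
  have := hK.sum_mem (t := Finset.univ) (w := ![1 - a - b, a, b]) (z := ![p, q, r])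
    (by intro i _; fin_cases i <;> simp <;> linarith)
    (by simp [Fin.sum_univ_three]; ring)
    (by intro i _; fin_cases i <;> simp [hp, hq, hr])
  simpa [Fin.sum_univ_three] using this

/-- the hull of three points has area at most that of the triangle -/
lemma volume_hull3_le (p q r : ℝ × ℝ) :
    volume (convexHull ℝ {p, q, r}) ≤ ENNReal.ofReal (|tri p q r| / 2) := by
  have h1 : convexHull ℝ {p, q, r} ⊆ aff p (q - p) (r - p) '' simp1 := by
    apply convexHull_min
    · intro x hx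
      simp only [mem_insert_iff, mem_singleton_iff] at hx
      rcases hx with rfl | rfl | rfl
      · refine ⟨(0, 0), by simp [simp1], by simp [aff]⟩
      · refine ⟨(1, 0), by simp [simp1], by simp [aff]⟩
      · refine ⟨(0, 1), by simp [simp1], by simp [aff]⟩
    · rintro _ ⟨x, ⟨h1, h2, h3⟩, rfl⟩ _ ⟨y, ⟨k1, k2, k3⟩, rfl⟩ a b ha hb hab
      refine ⟨a • x + b • y, ⟨?_, ?_, ?_⟩, ?_⟩
      · simp; positivity
      · simp; positivity
      · simp; nlinarith [mul_le_mul_of_nonneg_left h3 ha, mul_le_mul_of_nonneg_left k3 hb]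
      · have : b = 1 - a := by linarith
        subst this
        ext <;> simp [aff] <;> ring
  refine (measure_mono h1).trans ?_
  rw [volume_aff_image]
  refine (mul_le_mul_right volume_simp1_le _).trans ?_
  rw [← ENNReal.ofReal_mul (abs_nonneg _), tri]
  apply ENNReal.ofReal_le_ofReal
  linarith

/-- points inside a triangle -/
lemma mem_hull3 {p q r x : ℝ × ℝ} (hD : 0 < tri p q r) (h1 : 0 ≤ tri p q x)
    (h2 : 0 ≤ tri q r x) (h3 : 0 ≤ tri r p x) : x ∈ convexHull ℝ {p, q, r} := by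
  have hsum : tri p q x + tri q r x + tri r p x = tri p q r := by
    simp only [tri, cr, Prod.fst_sub, Prod.snd_sub]; ring
  have hx : x = (tri q r x / tri p q r) • p + (tri r p x / tri p q r) • q
      + (tri p q x / tri p q r) • r := by
    have hne : tri p q r ≠ 0 := hD.ne'
    ext
    · simp only [Prod.fst_add, Prod.smul_fst, smul_eq_mul]
      field_simp
      simp only [tri, cr, Prod.fst_sub, Prod.snd_sub]; ring
    · simp only [Prod.snd_add, Prod.smul_snd, smul_eq_mul]
      field_simp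
      simp only [tri, cr, Prod.fst_sub, Prod.snd_sub]; ring
  have := (convex_convexHull ℝ ({p, q, r} : Set (ℝ × ℝ))).sum_mem (t := Finset.univ)
    (w := ![tri q r x / tri p q r, tri r p x / tri p q r, tri p q x / tri p q r])
    (z := ![p, q, r])
    (by intro i _; fin_cases i <;> simp <;> positivity)
    (by
      simp only [Fin.sum_univ_three, Matrix.cons_val_zero, Matrix.cons_val_one,
        Matrix.cons_val_two, Matrix.head_cons, Matrix.tail_cons, Matrix.cons_val]
      rw [← add_div, ← add_div, div_eq_one_iff_eq hD.ne']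
      linarith)
    (by
      intro i _
      apply subset_convexHull
      fin_cases i <;> simp)
  rw [hx]
  simpa [Fin.sum_univ_three] using this

/-- hull of four points -/
def quad (p : Fin 4 → ℝ × ℝ) : Set (ℝ × ℝ) := convexHull ℝ (Set.range p)

lemma mem_region_tri {p1 p2 p3 p4 x : ℝ × ℝ} (h123 : 0 < tri p1 p2 p3) (h134 : 0 < tri p1 p3 p4)
    (a1 : 0 ≤ tri p1 p2 x) (a2 : 0 ≤ tri p2 p3 x) (a3 : 0 ≤ tri p3 p4 x) (a4 : 0 ≤ tri p4 p1 x) :
    x ∈ convexHull ℝ {p1, p2, p3} ∪ convexHull ℝ {p1, p3, p4} := by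
  have e : tri p3 p1 x = - tri p1 p3 x := by
    simp only [tri, cr, Prod.fst_sub, Prod.snd_sub]; ring
  rcases le_total 0 (tri p3 p1 x) with h | h
  · left; exact mem_hull3 h123 a1 a2 h
  · right; exact mem_hull3 h134 (by linarith) a3 a4

lemma quad_vec_range (p1 p2 p3 p4 : ℝ × ℝ) :
    Set.range ![p1, p2, p3, p4] = {p1, p2, p3, p4} := by
  ext x; simp [Matrix.range_cons]; tauto

/-- Containment criterion and area bound for a convex quadrilateral given in counterclockwise
order. -/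
lemma quad_key {p1 p2 p3 p4 : ℝ × ℝ} (h123 : 0 < tri p1 p2 p3) (h134 : 0 < tri p1 p3 p4)
    (h124 : 0 ≤ tri p1 p2 p4) (h234 : 0 ≤ tri p2 p3 p4) {K : Set (ℝ × ℝ)}
    (hK : ∀ x ∈ K, 0 ≤ tri p1 p2 x ∧ 0 ≤ tri p2 p3 x ∧ 0 ≤ tri p3 p4 x ∧ 0 ≤ tri p4 p1 x) :
    K ⊆ quad ![p1, p2, p3, p4] ∧
      volume (quad ![p1, p2, p3, p4]) ≤ ENNReal.ofReal (cr (p3 - p1) (p4 - p2) / 2) := by
  constructor
  · intro x hx
    obtain ⟨a1, a2, a3, a4⟩ := hK x hx
    have := mem_region_tri h123 h134 a1 a2 a3 a4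
    rw [quad, quad_vec_range]
    rcases this with h | h
    · refine convexHull_mono ?_ h
      intro y hy; simp only [mem_insert_iff, mem_singleton_iff] at hy ⊢; tauto
    · refine convexHull_mono ?_ h
      intro y hy; simp only [mem_insert_iff, mem_singleton_iff] at hy ⊢; tauto
  · have hsub : quad ![p1, p2, p3, p4] ⊆ {x | 0 ≤ tri p1 p2 x ∧ 0 ≤ tri p2 p3 x ∧
        0 ≤ tri p3 p4 x ∧ 0 ≤ tri p4 p1 x} := by
      rw [quad, quad_vec_range]
      apply convexHull_min
      · intro x hx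
        simp only [mem_insert_iff, mem_singleton_iff] at hx
        have z1 : ∀ a b : ℝ × ℝ, tri a b a = 0 := by
          intro a b; simp [tri, cr]
        have z2 : ∀ a b : ℝ × ℝ, tri a b b = 0 := by
          intro a b; simp [tri, cr]; ring
        have cyc : ∀ a b c : ℝ × ℝ, tri a b c = tri b c a := by
          intro a b c; simp only [tri, cr, Prod.fst_sub, Prod.snd_sub]; ring
        rcases hx with rfl | rfl | rfl | rfl
        · refine ⟨(z1 _ _).ge, ?_, ?_, (z2 _ _).ge⟩
          · rw [← cyc]; exact h123.le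
          · rw [← cyc]; exact h134.le
        · refine ⟨(z2 _ _).ge, (z1 _ _).ge, ?_, ?_⟩
          · rw [← cyc]; exact h234
          · rw [cyc]; exact h124
        · refine ⟨h123.le, (z2 _ _).ge, (z1 _ _).ge, ?_⟩
          · rw [cyc]; exact h134.le
        · exact ⟨h124, h234, (z2 _ _).ge, (z1 _ _).ge⟩
      · intro x hx y hy a b ha hb hab
        obtain ⟨x1, x2, x3, x4⟩ := hx
        obtain ⟨y1, y2, y3, y4⟩ := hy
        have lin : ∀ p q : ℝ × ℝ, tri p q (a • x + b • y) = a * tri p q x + b * tri p q y := by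
          intro p q
          have : b = 1 - a := by linarith
          subst this
          simp only [tri, cr, Prod.fst_sub, Prod.snd_sub, Prod.fst_add, Prod.snd_add,
            Prod.smul_fst, Prod.smul_snd, smul_eq_mul]
          ring
        refine ⟨?_, ?_, ?_, ?_⟩ <;> rw [lin] <;> positivity
    have h2 : quad ![p1, p2, p3, p4] ⊆ convexHull ℝ {p1, p2, p3} ∪ convexHull ℝ {p1, p3, p4} := by
      intro x hx
      obtain ⟨a1, a2, a3, a4⟩ := hsub hx
      exact mem_region_tri h123 h134 a1 a2 a3 a4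
    calc volume (quad ![p1, p2, p3, p4])
        ≤ volume (convexHull ℝ {p1, p2, p3}) + volume (convexHull ℝ {p1, p3, p4}) :=
          (measure_mono h2).trans (measure_union_le _ _)
      _ ≤ ENNReal.ofReal (|tri p1 p2 p3| / 2) + ENNReal.ofReal (|tri p1 p3 p4| / 2) :=
          add_le_add (volume_hull3_le _ _ _) (volume_hull3_le _ _ _)
      _ = ENNReal.ofReal (cr (p3 - p1) (p4 - p2) / 2) := by
          rw [abs_of_pos h123, abs_of_pos h134, ← ENNReal.ofReal_add (by positivity)
            (by positivity)]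
          congr 1
          simp only [tri, cr, Prod.fst_sub, Prod.snd_sub]
          ring

/-- every quadrilateral containing `K` has area at least `m` -/
def AllQ (K : Set (ℝ × ℝ)) (m : ℝ) : Prop :=
  ∀ p : Fin 4 → ℝ × ℝ, K ⊆ quad p → ENNReal.ofReal m ≤ volume (quad p)

lemma AllQ.mono {K : Set (ℝ × ℝ)} {m m' : ℝ} (h : AllQ K m) (hm : m' ≤ m) : AllQ K m' :=
  fun p hp => (ENNReal.ofReal_le_ofReal hm).trans (h p hp)

lemma aff_quad (O u w : ℝ × ℝ) (p : Fin 4 → ℝ × ℝ) :
    aff O u w '' quad p = quad (fun i => aff O u w (p i)) := by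
  let A : (ℝ × ℝ) →ᵃ[ℝ] (ℝ × ℝ) :=
    { toFun := aff O u w
      linear := LM u w
      map_vadd' := by
        intro p v
        ext <;> simp [aff] <;> ring }
  have h : aff O u w = A := rfl
  rw [h, quad, AffineMap.image_convexHull, quad, ← Set.range_comp]
  rfl

lemma aff_surj {O u w : ℝ × ℝ} (h : cr u w ≠ 0) : Function.Surjective (aff O u w) := by
  intro x
  refine ⟨(cr (x - O) w / cr u w, cr u (x - O) / cr u w), ?_⟩
  ext
  · simp only [aff, Prod.fst_add, Prod.smul_fst, smul_eq_mul]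
    field_simp
    simp only [cr, Prod.fst_sub, Prod.snd_sub]; ring
  · simp only [aff, Prod.snd_add, Prod.smul_snd, smul_eq_mul]
    field_simp
    simp only [cr, Prod.fst_sub, Prod.snd_sub]; ring

lemma continuous_aff (O u w : ℝ × ℝ) : Continuous (aff O u w) := by
  unfold aff; fun_prop

lemma volume_preimage_aff {O u w : ℝ × ℝ} (h : cr u w ≠ 0) (K : Set (ℝ × ℝ)) :
    volume K = ENNReal.ofReal |cr u w| * volume (aff O u w ⁻¹' K) := by
  conv_lhs => rw [← Set.image_preimage_eq K (aff_surj (O := O) h)]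
  rw [volume_aff_image]

lemma AllQ.preimage {K : Set (ℝ × ℝ)} {m : ℝ} (hK : AllQ K m) {O u w : ℝ × ℝ}
    (h : cr u w ≠ 0) : AllQ (aff O u w ⁻¹' K) (m / |cr u w|) := by
  intro p hp
  have h1 : K ⊆ quad (fun i => aff O u w (p i)) := by
    rw [← aff_quad, ← Set.image_preimage_eq K (aff_surj (O := O) h)]
    exact Set.image_mono hp
  have h2 := hK _ h1
  rw [← aff_quad, volume_aff_image] at h2
  have hpos : 0 < |cr u w| := abs_pos.2 h
  rw [div_eq_inv_mul, ENNReal.ofReal_mul (by positivity), ENNReal.ofReal_inv_of_pos hpos]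
  rw [ENNReal.inv_mul_le_iff]
  · exact h2
  · simpa using hpos
  · exact ENNReal.ofReal_ne_top

lemma convex_preimage_aff {K : Set (ℝ × ℝ)} (hK : Convex ℝ K) (O u w : ℝ × ℝ) :
    Convex ℝ (aff O u w ⁻¹' K) := by
  intro x hx y hy a b ha hb hab
  have := hK hx hy ha hb hab
  show aff O u w (a • x + b • y) ∈ K
  convert this using 1
  have : b = 1 - a := by linarith
  subst this
  ext <;> simp [aff] <;> ring

end Pool.Agent.NH81.Quad
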