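import Pool.Agent.NH81.Quad.Limit3

/-!
Compactness argument: a sequence of normalised bodies without small circumscribed
quadrilaterals has a limit body.
-/

open MeasureTheory Set Filter Topology
open scoped ENNReal

namespace Pool.Agent.NH81.Quad

/-- homothety with centre `x0` and ratio `s` -/
noncomputable def hom (x0 : ℝ × ℝ) (s : ℝ) : ℝ × ℝ → ℝ × ℝ := aff ((1 - s) • x0) (s, 0) (0, s)

lemma hom_apply (x0 : ℝ × ℝ) (s : ℝ) (z : ℝ × ℝ) : hom x0 s z = (1 - s) • x0 + s • z := by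
  ext <;> simp [hom, aff] <;> ring

lemma volume_hom_image (x0 : ℝ × ℝ) (s : ℝ) (S : Set (ℝ × ℝ)) :
    volume (hom x0 s '' S) = ENNReal.ofReal (s ^ 2) * volume S := by
  rw [hom, volume_aff_image]
  have : |cr (s, 0) (0, s)| = s ^ 2 := by
    simp only [cr]
    rw [show s * s - 0 * 0 = s ^ 2 by ring]
    exact abs_of_nonneg (sq_nonneg s)
  rw [this]

lemma inner_sandwich {K L : Set (ℝ × ℝ)} (hK : Convex ℝ K) (hKc : IsClosed K) {x0 : ℝ × ℝ}
    {ρ ε t : ℝ} (hρ : 0 < ρ) (hball : Metric.closedBall x0 ρ ⊆ L)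
    (hL : L ⊆ Metric.thickening ε K) (ht0 : 0 ≤ t) (ht1 : t ≤ 1) (ht : ε = t * ρ) :
    ∀ k ∈ L, (1 - t) • k + t • x0 ∈ K := by
  intro k hk
  by_contra hnot
  obtain ⟨f, u, hf1, hf2⟩ := geometric_hahn_banach_closed_point hK hKc hnot
  have hL' : ∀ k' ∈ L, f k' ≤ u + ε * ‖f‖ := by
    intro k' hk'
    obtain ⟨a, ha, hda⟩ := Metric.mem_thickening_iff.1 (hL hk')
    have h1 : f k' = f a + f (k' - a) := by rw [map_sub]; ring
    have h2 : f (k' - a) ≤ ‖f‖ * ‖k' - a‖ := (le_abs_self _).trans (f.le_opNorm _)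
    have h3 : ‖k' - a‖ ≤ ε := by rw [← dist_eq_norm]; exact hda.le
    have h4 : ‖f‖ * ‖k' - a‖ ≤ ‖f‖ * ε := mul_le_mul_of_nonneg_left h3 (norm_nonneg _)
    linarith [hf1 a ha]
  have hC : ρ * ‖f‖ ≤ u + ε * ‖f‖ - f x0 := by
    have hb : ∀ b : ℝ × ℝ, ‖b‖ ≤ ρ → f b ≤ u + ε * ‖f‖ - f x0 := by
      intro b hb
      have := hL' (x0 + b) (hball (by
        rw [Metric.mem_closedBall, dist_eq_norm, add_sub_cancel_left]; exact hb))
      rw [map_add] at this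
      linarith
    have h0 : 0 ≤ u + ε * ‖f‖ - f x0 := by
      have := hb 0 (by simpa using hρ.le)
      simpa using this
    have hn : ‖f‖ ≤ (u + ε * ‖f‖ - f x0) / ρ := by
      apply ContinuousLinearMap.opNorm_le_of_unit_norm (by positivity)
      intro x hx
      have h1 := hb (ρ • x) (by rw [norm_smul, hx, mul_one, Real.norm_of_nonneg hρ.le])
      have h2 := hb (-(ρ • x)) (by
        rw [norm_neg, norm_smul, hx, mul_one, Real.norm_of_nonneg hρ.le])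
      rw [map_neg] at h2
      rw [map_smul, smul_eq_mul] at h1 h2
      rw [Real.norm_eq_abs, le_div_iff₀ hρ, abs_mul_eq ρ hρ]
      rw [abs_le]
      constructor <;> linarith
    rw [le_div_iff₀ hρ] at hn
    linarith
  have hk' := hL' k hk
  rw [map_add, map_smul, map_smul, smul_eq_mul, smul_eq_mul] at hf2
  have h1 : (1 - t) * f k ≤ (1 - t) * (u + ε * ‖f‖) := mul_le_mul_of_nonneg_left hk' (by linarith)
  have h2 : t * f x0 ≤ t * (u + ε * ‖f‖ - ρ * ‖f‖) :=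
    mul_le_mul_of_nonneg_left (by linarith) ht0
  rw [ht] at h1 h2
  nlinarith
where
  abs_mul_eq (ρ : ℝ) (hρ : 0 < ρ) {x : ℝ} : |x| * ρ = |ρ * x| := by
    rw [abs_mul, abs_of_pos hρ, mul_comm]

lemma outer_sandwich {Q : Set (ℝ × ℝ)} (hQ : Convex ℝ Q) {x0 : ℝ × ℝ}
    {ρ ε t : ℝ} (hρ : 0 < ρ) (hε : 0 < ε) (hball : Metric.closedBall x0 ρ ⊆ Q)
    (ht : t = ε / ρ) : Metric.thickening ε Q ⊆ hom x0 (1 + t) '' Q := by
  intro y hy
  obtain ⟨q, hq, hyq⟩ := Metric.mem_thickening_iff.1 hy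
  have ht0 : 0 < t := by rw [ht]; positivity
  have hb : x0 + (ρ / ε) • (y - q) ∈ Q := by
    apply hball
    rw [Metric.mem_closedBall, dist_eq_norm, add_sub_cancel_left, norm_smul,
      Real.norm_of_nonneg (by positivity)]
    rw [dist_eq_norm] at hyq
    calc ρ / ε * ‖y - q‖ ≤ ρ / ε * ε := by gcongr
      _ = ρ := by field_simp
  refine ⟨(1 / (1 + t)) • q + (t / (1 + t)) • (x0 + (ρ / ε) • (y - q)), ?_, ?_⟩
  · apply hQ hq hb (by positivity) (by positivity)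
    field_simp
  · rw [hom_apply]
    have e1 : t * (ρ / ε) = 1 := by rw [ht]; field_simp
    have e2 : (1 + t) ≠ 0 := by positivity
    ext
    · simp only [Prod.fst_add, Prod.smul_fst, Prod.fst_sub, smul_eq_mul]
      field_simp
      rw [ht]; field_simp; ring
    · simp only [Prod.snd_add, Prod.smul_snd, Prod.snd_sub, smul_eq_mul]
      field_simp
      rw [ht]; field_simp; ring

/-- ultralimit of a sequence of sets -/
def ulim (U : Ultrafilter ℕ) (K : ℕ → Set (ℝ × ℝ)) : Set (ℝ × ℝ) :=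
  {x | ∀ ε > 0, ∀ᶠ n in (U : Filter ℕ), ∃ y ∈ K n, dist x y < ε}

variable {U : Ultrafilter ℕ} {K : ℕ → Set (ℝ × ℝ)}

lemma ulim_box (hbox : ∀ n, ∀ x ∈ K n, |x.1| ≤ 1 ∧ |x.2| ≤ 1) :
    ∀ x ∈ ulim U K, |x.1| ≤ 1 ∧ |x.2| ≤ 1 := by
  intro x hx
  have key : ∀ ε > 0, |x.1| ≤ 1 + ε ∧ |x.2| ≤ 1 + ε := by
    intro ε hε
    obtain ⟨n, y, hy, hd⟩ := (hx ε hε).exists
    obtain ⟨h1, h2⟩ := hbox n y hy
    rw [dist_eq_norm] at hd
    have d1 : |x.1 - y.1| ≤ ε := by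
      have := (norm_fst_le (x - y)).trans hd.le
      rwa [Prod.fst_sub, Real.norm_eq_abs] at this
    have d2 : |x.2 - y.2| ≤ ε := by
      have := (norm_snd_le (x - y)).trans hd.le
      rwa [Prod.snd_sub, Real.norm_eq_abs] at this
    rw [abs_le] at h1 h2 d1 d2
    rw [abs_le, abs_le]
    exact ⟨⟨by linarith [h1.1, h1.2, d1.1, d1.2], by linarith [h1.1, h1.2, d1.1, d1.2]⟩,
      ⟨by linarith [h2.1, h2.2, d2.1, d2.2], by linarith [h2.1, h2.2, d2.1, d2.2]⟩⟩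
  exact ⟨le_of_forall_pos_le_add fun ε hε => (key ε hε).1,
    le_of_forall_pos_le_add fun ε hε => (key ε hε).2⟩

lemma ulim_closed : IsClosed (ulim U K) := by
  rw [← isSeqClosed_iff_isClosed]
  intro x a hx ha ε hε
  obtain ⟨k, hk⟩ := (Metric.tendsto_atTop.1 ha (ε / 2) (by positivity))
  filter_upwards [hx k (ε / 2) (by positivity)] with n hn
  obtain ⟨y, hy, hd⟩ := hn
  refine ⟨y, hy, ?_⟩
  have h1 := hk k le_rfl
  rw [dist_comm] at h1
  calc dist a y ≤ dist a (x k) + dist (x k) y := dist_triangle _ _ _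
    _ < ε := by linarith

lemma ulim_convex (hK : ∀ n, Convex ℝ (K n)) : Convex ℝ (ulim U K) := by
  intro x hx y hy a b ha hb hab ε hε
  filter_upwards [hx ε hε, hy ε hε] with n h1 h2
  obtain ⟨x', hx', hdx⟩ := h1
  obtain ⟨y', hy', hdy⟩ := h2
  refine ⟨a • x' + b • y', hK n hx' hy' ha hb hab, ?_⟩
  have : a • x + b • y - (a • x' + b • y') = a • (x - x') + b • (y - y') := by
    rw [smul_sub, smul_sub]; abel
  rw [dist_eq_norm, this]
  rw [dist_eq_norm] at hdx hdy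
  calc ‖a • (x - x') + b • (y - y')‖ ≤ ‖a • (x - x')‖ + ‖b • (y - y')‖ := norm_add_le _ _
    _ = a * ‖x - x'‖ + b * ‖y - y'‖ := by
        rw [norm_smul, norm_smul, Real.norm_of_nonneg ha, Real.norm_of_nonneg hb]
    _ < ε := by
        rcases ha.eq_or_lt with h | h
        · have hb1 : b = 1 := by linarith
          rw [← h, hb1]; linarith
        · have e1 : a * ‖x - x'‖ < a * ε := mul_lt_mul_of_pos_left hdx h
          have e2 : b * ‖y - y'‖ ≤ b * ε := mul_le_mul_of_nonneg_left hdy.le hb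
          have e3 : a * ε + b * ε = ε := by rw [← add_mul, hab, one_mul]
          linarith

lemma isCompact_box : IsCompact {x : ℝ × ℝ | |x.1| ≤ 1 ∧ |x.2| ≤ 1} := by
  have : {x : ℝ × ℝ | |x.1| ≤ 1 ∧ |x.2| ≤ 1} = Icc (-1 : ℝ) 1 ×ˢ Icc (-1 : ℝ) 1 := by
    ext x
    simp only [abs_le, mem_ofPred_eq, Set.mem_prod, Set.mem_Icc]
  rw [this]
  exact isCompact_Icc.prod isCompact_Icc

lemma ulim_compact (hbox : ∀ n, ∀ x ∈ K n, |x.1| ≤ 1 ∧ |x.2| ≤ 1) : IsCompact (ulim U K) :=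
  isCompact_box.of_isClosed_subset ulim_closed (ulim_box hbox)

lemma ulim_outer (hbox : ∀ n, ∀ x ∈ K n, |x.1| ≤ 1 ∧ |x.2| ≤ 1) {ε : ℝ} (hε : 0 < ε) :
    ∀ᶠ n in (U : Filter ℕ), K n ⊆ Metric.thickening ε (ulim U K) := by
  by_contra hcon
  rw [← Ultrafilter.eventually_not] at hcon
  have hex : ∀ n, ∃ y : ℝ × ℝ, (|y.1| ≤ 1 ∧ |y.2| ≤ 1) ∧
      (¬ K n ⊆ Metric.thickening ε (ulim U K) → y ∈ K n ∧ y ∉ Metric.thickening ε (ulim U K)) := by
    intro n
    by_cases h : K n ⊆ Metric.thickening ε (ulim U K)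
    · exact ⟨0, by simp, fun h' => absurd h h'⟩
    · obtain ⟨y, hy1, hy2⟩ := Set.not_subset.1 h
      exact ⟨y, hbox n y hy1, fun _ => ⟨hy1, hy2⟩⟩
  choose y hy1 hy2 using hex
  obtain ⟨x, _, hx⟩ := isCompact_box.ultrafilter_le_nhds (U.map y) (by
    rw [Filter.le_principal_iff]
    show ∀ᶠ n in (U : Filter ℕ), y n ∈ {x : ℝ × ℝ | |x.1| ≤ 1 ∧ |x.2| ≤ 1}
    exact Filter.Eventually.of_forall hy1)
  have hx' : Tendsto y (U : Filter ℕ) (𝓝 x) := hx
  have hxL : x ∈ ulim U K := by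
    intro ε' hε'
    have h1 : ∀ᶠ n in (U : Filter ℕ), dist (y n) x < ε' := (Metric.tendsto_nhds.1 hx') ε' hε'
    filter_upwards [h1, hcon] with n h1 h2
    refine ⟨y n, (hy2 n h2).1, ?_⟩
    rw [dist_comm]; exact h1
  have h1 : ∀ᶠ n in (U : Filter ℕ), dist (y n) x < ε := (Metric.tendsto_nhds.1 hx') ε hε
  obtain ⟨n, h1, h2⟩ := (h1.and hcon).exists
  exact (hy2 n h2).2 (Metric.mem_thickening_iff.2 ⟨x, hxL, h1⟩)

lemma ulim_inner (hbox : ∀ n, ∀ x ∈ K n, |x.1| ≤ 1 ∧ |x.2| ≤ 1) {ε : ℝ} (hε : 0 < ε) :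
    ∀ᶠ n in (U : Filter ℕ), ulim U K ⊆ Metric.thickening ε (K n) := by
  obtain ⟨t, ht, htf, hcov⟩ := (ulim_compact (U := U) hbox).finite_cover_balls
    (e := ε / 2) (by positivity)
  have h : ∀ᶠ n in (U : Filter ℕ), ∀ x ∈ t, ∃ y ∈ K n, dist x y < ε / 2 := by
    rw [Filter.eventually_all_finite htf]
    intro x hx
    exact ht hx (ε / 2) (by positivity)
  filter_upwards [h] with n hn
  intro z hz
  obtain ⟨x, hx, hzx⟩ := Set.mem_iUnion₂.1 (hcov hz)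
  obtain ⟨y, hy, hxy⟩ := hn x hx
  refine Metric.mem_thickening_iff.2 ⟨y, hy, ?_⟩
  rw [Metric.mem_ball] at hzx
  calc dist z y ≤ dist z x + dist x y := dist_triangle _ _ _
    _ < ε := by linarith

end Pool.Agent.NH81.Quad
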