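import Pool.Agent.NH81.Quad.NF2

/-!
A body in the square `[-1, 1]^2` of area at most `2 √2` all of whose circumscribed quadrilaterals
have area at least `4` does not exist.
-/

open MeasureTheory Set
open scoped ENNReal

namespace Pool.Agent.NH81.Quad

lemma allQ_key {K : Set (ℝ × ℝ)} {m : ℝ} (hm : 0 < m) (hQ : AllQ K m) {p1 p2 p3 p4 : ℝ × ℝ}
    (h123 : 0 < tri p1 p2 p3) (h134 : 0 < tri p1 p3 p4)
    (h124 : 0 ≤ tri p1 p2 p4) (h234 : 0 ≤ tri p2 p3 p4)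
    (hK : ∀ x ∈ K, 0 ≤ tri p1 p2 x ∧ 0 ≤ tri p2 p3 x ∧ 0 ≤ tri p3 p4 x ∧ 0 ≤ tri p4 p1 x) :
    m ≤ cr (p3 - p1) (p4 - p2) / 2 := by
  obtain ⟨h1, h2⟩ := quad_key h123 h134 h124 h234 hK
  have h3 := (hQ _ h1).trans h2
  rcases ENNReal.ofReal_le_ofReal_iff'.1 h3 with h | h
  · exact h
  · linarith

/-- limit body, first form -/
structure Lim (K : Set (ℝ × ℝ)) : Prop where
  convex : Convex ℝ K
  compact : IsCompact K
  box : ∀ x ∈ K, |x.1| ≤ 1 ∧ |x.2| ≤ 1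
  vol : volume K ≤ ENNReal.ofReal (2 * √2)
  allQ : AllQ K 4

lemma Lim.mid {K : Set (ℝ × ℝ)} (hK : Lim K) : ((1 : ℝ), (0 : ℝ)) ∈ K := by
  by_contra hnot
  obtain ⟨f, s, hf1, hf2⟩ := geometric_hahn_banach_closed_point hK.convex hK.compact.isClosed hnot
  obtain ⟨α, hα⟩ : ∃ α, α = f (1, 0) := ⟨_, rfl⟩
  obtain ⟨β, hβ⟩ : ∃ β, β = f (0, 1) := ⟨_, rfl⟩
  have hf : ∀ x : ℝ × ℝ, f x = α * x.1 + β * x.2 := by
    intro x
    have : x = x.1 • ((1 : ℝ), (0 : ℝ)) + x.2 • ((0 : ℝ), (1 : ℝ)) := by ext <;> simp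
    conv_lhs => rw [this]
    rw [map_add, map_smul, map_smul, ← hα, ← hβ]
    simp only [smul_eq_mul]; ring
  rw [← hα] at hf2
  obtain ⟨l, hl⟩ : ∃ l, l = 1 / (2 * (1 + |α| + |s| + |β|)) := ⟨_, rfl⟩
  have hden : 0 < 2 * (1 + |α| + |s| + |β|) := by positivity
  have hl0 : 0 < l := by rw [hl]; positivity
  have hl1 : l * (1 + |α| + |s| + |β|) = 1 / 2 := by rw [hl]; field_simp
  have q1 : 0 ≤ l * |α| := by positivity
  have q2 : 0 ≤ l * |s| := by positivity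
  have q3 : 0 ≤ l * |β| := by positivity
  have hexp : l + l * |α| + l * |s| + l * |β| = 1 / 2 := by rw [← hl1]; ring
  have w1 : |l * α| ≤ l * |α| := by rw [abs_mul, abs_of_pos hl0]
  have w2 : |l * s| ≤ l * |s| := by rw [abs_mul, abs_of_pos hl0]
  have w3 : |l * β| ≤ l * |β| := by rw [abs_mul, abs_of_pos hl0]
  rw [abs_le] at w1 w2 w3
  obtain ⟨A, hA⟩ : ∃ A, A = (1 - l) + l * α := ⟨_, rfl⟩
  obtain ⟨S, hS⟩ : ∃ S, S = (1 - l) + l * s := ⟨_, rfl⟩
  obtain ⟨B, hB⟩ : ∃ B, B = l * β := ⟨_, rfl⟩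
  have hA0 : 1 / 2 ≤ A := by rw [hA]; linarith
  have hS0 : 1 / 2 ≤ S := by rw [hS]; linarith
  have hB1 : B ≤ 1 / 2 := by rw [hB]; linarith
  have hB2 : -(1 / 2) ≤ B := by rw [hB]; linarith
  have hSA : S < A := by rw [hS, hA]; nlinarith
  have hApos : 0 < A := by linarith
  have hline : ∀ x ∈ K, A * x.1 + B * x.2 ≤ S := by
    intro x hx
    have h1 := hf1 x hx
    rw [hf] at h1
    have h2 := (abs_le.1 (hK.box x hx).1).2
    rw [hA, hB, hS]
    have h3 : (1 - l) * x.1 ≤ (1 - l) * 1 := mul_le_mul_of_nonneg_left h2 (by linarith)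
    have h4 : l * (α * x.1 + β * x.2) ≤ l * s := mul_le_mul_of_nonneg_left h1.le hl0.le
    nlinarith
  obtain ⟨g, hg⟩ : ∃ g, g = (S + B) / A := ⟨_, rfl⟩
  obtain ⟨h, hh⟩ : ∃ h, h = (S - B) / A := ⟨_, rfl⟩
  have hgA : g * A = S + B := by rw [hg]; field_simp
  have hhA : h * A = S - B := by rw [hh]; field_simp
  have hg1 : 0 < g + 1 := by
    have : g + 1 = (S + B + A) / A := by rw [hg]; field_simp
    rw [this]; apply div_pos _ hApos; linarith
  have hh1 : 0 < h + 1 := by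
    have : h + 1 = (S - B + A) / A := by rw [hh]; field_simp
    rw [this]; apply div_pos _ hApos; linarith
  have hkey := allQ_key (by norm_num : (0 : ℝ) < 4) hK.allQ
    (p1 := (-1, -1)) (p2 := (g, -1)) (p3 := (h, 1)) (p4 := (-1, 1))
    (by simp only [tri, cr, Prod.fst_sub, Prod.snd_sub]; linarith)
    (by simp only [tri, cr, Prod.fst_sub, Prod.snd_sub]; linarith)
    (by simp only [tri, cr, Prod.fst_sub, Prod.snd_sub]; linarith)
    (by simp only [tri, cr, Prod.fst_sub, Prod.snd_sub]; linarith)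
    (by
      intro x hx
      obtain ⟨b1, b2⟩ := hK.box x hx
      rw [abs_le] at b1 b2
      refine ⟨?_, ?_, ?_, ?_⟩
      · have : tri (-1, -1) (g, -1) x = (g + 1) * (x.2 + 1) := by
          simp only [tri, cr, Prod.fst_sub, Prod.snd_sub]; ring
        rw [this]; apply mul_nonneg hg1.le; linarith
      · have h1 := hline x hx
        have : tri (g, -1) (h, 1) x = 2 / A * (S - (A * x.1 + B * x.2)) := by
          simp only [tri, cr, Prod.fst_sub, Prod.snd_sub]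
          rw [hg, hh]; field_simp; ring
        rw [this]; apply mul_nonneg (by positivity); linarith
      · have : tri (h, 1) (-1, 1) x = (h + 1) * (1 - x.2) := by
          simp only [tri, cr, Prod.fst_sub, Prod.snd_sub]; ring
        rw [this]; apply mul_nonneg hh1.le; linarith
      · have : tri (-1, 1) (-1, -1) x = 2 * (x.1 + 1) := by
          simp only [tri, cr, Prod.fst_sub, Prod.snd_sub]; ring
        rw [this]; apply mul_nonneg (by norm_num); linarith)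
  have hval : cr ((h, (1 : ℝ)) - (-1, -1)) ((-1, 1) - (g, -1)) / 2 = 2 * (S / A) + 2 := by
    simp only [cr, Prod.fst_sub, Prod.snd_sub]
    rw [hg, hh]; field_simp; ring
  rw [hval] at hkey
  have : S / A < 1 := (div_lt_one hApos).2 hSA
  linarith

lemma Lim.sym {K : Set (ℝ × ℝ)} (hK : Lim K) {u w : ℝ × ℝ} (h : |cr u w| = 1)
    (hbox : ∀ z : ℝ × ℝ, |(aff 0 u w z).1| ≤ 1 ∧ |(aff 0 u w z).2| ≤ 1 → |z.1| ≤ 1 ∧ |z.2| ≤ 1) :
    Lim (aff 0 u w ⁻¹' K) := by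
  have h0 : cr u w ≠ 0 := by intro h'; rw [h'] at h; norm_num at h
  refine ⟨convex_preimage_aff hK.convex _ _ _, isCompact_preimage_aff hK.compact h0, ?_, ?_, ?_⟩
  · intro z hz; exact hbox z (hK.box _ hz)
  · have := volume_preimage_aff (O := 0) h0 K
    rw [h, ENNReal.ofReal_one, one_mul] at this
    rw [← this]; exact hK.vol
  · have := hK.allQ.preimage (O := 0) h0
    rwa [h, div_one] at this

/-- limit body, second form -/
structure Lim2 (K : Set (ℝ × ℝ)) : Prop where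
  convex : Convex ℝ K
  compact : IsCompact K
  p1 : ((1 : ℝ), (1 : ℝ)) ∈ K
  p2 : ((-1 : ℝ), (1 : ℝ)) ∈ K
  p3 : ((-1 : ℝ), (-1 : ℝ)) ∈ K
  p4 : ((1 : ℝ), (-1 : ℝ)) ∈ K
  bd : ∀ x ∈ K, |x.1| + |x.2| ≤ 2
  vol : volume K ≤ ENNReal.ofReal (4 * √2)
  allQ : AllQ K 8

lemma Lim.toLim2 {K : Set (ℝ × ℝ)} (hK : Lim K) :
    Lim2 (aff 0 (1 / 2, 1 / 2) (-(1 / 2), 1 / 2) ⁻¹' K) := by
  have hcr : cr ((1 / 2 : ℝ), (1 / 2 : ℝ)) (-(1 / 2), 1 / 2) = 1 / 2 := by
    simp only [cr]; norm_num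
  have h0 : cr ((1 / 2 : ℝ), (1 / 2 : ℝ)) (-(1 / 2), 1 / 2) ≠ 0 := by rw [hcr]; norm_num
  have m1 := hK.mid
  have m2 : ((-1 : ℝ), (0 : ℝ)) ∈ K := by
    have := (hK.sym (u := (-1, 0)) (w := (0, 1)) (by simp [cr]) (by
      intro z hz; simpa [aff] using hz)).mid
    have h : aff 0 (-1, 0) (0, 1) ((1 : ℝ), (0 : ℝ)) ∈ K := this
    simpa [aff] using h
  have m3 : ((0 : ℝ), (1 : ℝ)) ∈ K := by
    have := (hK.sym (u := (0, 1)) (w := (1, 0)) (by simp [cr]) (by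
      intro z hz; simp [aff] at hz; exact ⟨hz.2, hz.1⟩)).mid
    have h : aff 0 (0, 1) (1, 0) ((1 : ℝ), (0 : ℝ)) ∈ K := this
    simpa [aff] using h
  have m4 : ((0 : ℝ), (-1 : ℝ)) ∈ K := by
    have := (hK.sym (u := (0, -1)) (w := (1, 0)) (by simp [cr]) (by
      intro z hz; simp [aff] at hz; exact ⟨hz.2, hz.1⟩)).mid
    have h : aff 0 (0, -1) (1, 0) ((1 : ℝ), (0 : ℝ)) ∈ K := this
    simpa [aff] using h
  refine ⟨convex_preimage_aff hK.convex _ _ _, isCompact_preimage_aff hK.compact h0,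
    ?_, ?_, ?_, ?_, ?_, ?_, ?_⟩
  · show aff _ _ _ _ ∈ K
    convert m3 using 1
    ext <;> simp [aff]; norm_num
  · show aff _ _ _ _ ∈ K
    convert m2 using 1
    ext <;> simp [aff]; norm_num
  · show aff _ _ _ _ ∈ K
    convert m4 using 1
    ext <;> simp [aff]; norm_num
  · show aff _ _ _ _ ∈ K
    convert m1 using 1
    ext <;> simp [aff]; norm_num
  · intro x hx
    have hb := hK.box _ hx
    simp only [aff, Prod.fst_add, Prod.snd_add, Prod.smul_fst, Prod.smul_snd, smul_eq_mul,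
      Prod.fst_zero, Prod.snd_zero, zero_add] at hb
    obtain ⟨b1, b2⟩ := hb
    rw [abs_le] at b1 b2
    rcases abs_cases x.1 with ⟨e1, _⟩ | ⟨e1, _⟩ <;> rcases abs_cases x.2 with ⟨e2, _⟩ | ⟨e2, _⟩ <;>
      rw [e1, e2] <;> linarith
  · have h1 := volume_preimage_aff (O := 0) h0 K
    have h2 := hK.vol
    rw [hcr] at h1
    rw [h1, abs_of_pos (by norm_num : (0 : ℝ) < 1 / 2)] at h2
    have h3 : ENNReal.ofReal (2 * √2) = ENNReal.ofReal (1 / 2) * ENNReal.ofReal (4 * √2) := by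
      rw [← ENNReal.ofReal_mul (by norm_num)]; congr 1; ring
    rw [h3] at h2
    exact (ENNReal.mul_le_mul_iff_right (by simp) ENNReal.ofReal_ne_top).1 h2
  · have := hK.allQ.preimage (O := 0) h0
    rw [hcr, abs_of_pos (by norm_num : (0 : ℝ) < 1 / 2)] at this
    norm_num at this
    exact this

end Pool.Agent.NH81.Quad
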