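import Pool.Agent.NH81.Quad.Limit

/-!
The second form of the limit body leads to a contradiction.
-/

open MeasureTheory Set
open scoped ENNReal

namespace Pool.Agent.NH81.Quad

lemma cap {K U : Set (ℝ × ℝ)} (hK : Convex ℝ K) {p q r : ℝ × ℝ} (hp : p ∈ K) (hq : q ∈ K)
    (hr : r ∈ K) (hU : 0 < tri p q r → oTri p q r ⊆ U) {t : ℝ} (ht : tri p q r = 2 * t)
    (ht0 : 0 ≤ t) : ENNReal.ofReal t ≤ volume (K ∩ U) := by
  rcases ht0.eq_or_lt with h | h
  · rw [← h]; simp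
  · have h1 : volume (oTri p q r) = ENNReal.ofReal t := by
      rw [volume_oTri, ht, abs_of_pos (by positivity)]; congr 1; ring
    rw [← h1]
    exact measure_mono (subset_inter (oTri_subset hK hp hq hr) (hU (by rw [ht]; positivity)))

lemma cap_right {K : Set (ℝ × ℝ)} (hK : Convex ℝ K) {r ζ : ℝ} (h1 : ((1 : ℝ), (1 : ℝ)) ∈ K)
    (h4 : ((1 : ℝ), (-1 : ℝ)) ∈ K) (hr : 0 ≤ r) (hZ : (1 + r, ζ) ∈ K) :
    ENNReal.ofReal r ≤ volume (K ∩ {x | 1 < x.1}) := by
  refine cap hK h4 hZ h1 ?_ (t := r) (by simp only [tri, cr, Prod.fst_sub, Prod.snd_sub]; ring) hr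
  intro hpos x hx
  obtain ⟨a, b, ha, hb, hab, rfl⟩ := mem_oTri.1 hx
  have : 0 < r := by
    simp only [tri, cr, Prod.fst_sub, Prod.snd_sub] at hpos
    nlinarith
  simp only [mem_ofPred_eq, Prod.fst_add, Prod.smul_fst, smul_eq_mul]
  nlinarith [mul_pos ha this]

lemma cap_left {K : Set (ℝ × ℝ)} (hK : Convex ℝ K) {r ζ : ℝ} (h1 : ((-1 : ℝ), (1 : ℝ)) ∈ K)
    (h4 : ((-1 : ℝ), (-1 : ℝ)) ∈ K) (hr : 0 ≤ r) (hZ : (-1 - r, ζ) ∈ K) :
    ENNReal.ofReal r ≤ volume (K ∩ {x | x.1 < -1}) := by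
  refine cap hK h1 hZ h4 ?_ (t := r) (by simp only [tri, cr, Prod.fst_sub, Prod.snd_sub]; ring) hr
  intro hpos x hx
  obtain ⟨a, b, ha, hb, hab, rfl⟩ := mem_oTri.1 hx
  have : 0 < r := by
    simp only [tri, cr, Prod.fst_sub, Prod.snd_sub] at hpos
    nlinarith
  simp only [mem_ofPred_eq, Prod.fst_add, Prod.smul_fst, smul_eq_mul]
  nlinarith [mul_pos ha this]

lemma cap_top {K : Set (ℝ × ℝ)} (hK : Convex ℝ K) {r ζ : ℝ} (h1 : ((1 : ℝ), (1 : ℝ)) ∈ K)
    (h4 : ((-1 : ℝ), (1 : ℝ)) ∈ K) (hr : 0 ≤ r) (hZ : (ζ, 1 + r) ∈ K) :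
    ENNReal.ofReal r ≤ volume (K ∩ {x | 1 < x.2}) := by
  refine cap hK h1 hZ h4 ?_ (t := r) (by simp only [tri, cr, Prod.fst_sub, Prod.snd_sub]; ring) hr
  intro hpos x hx
  obtain ⟨a, b, ha, hb, hab, rfl⟩ := mem_oTri.1 hx
  have : 0 < r := by
    simp only [tri, cr, Prod.fst_sub, Prod.snd_sub] at hpos
    nlinarith
  simp only [mem_ofPred_eq, Prod.snd_add, Prod.smul_snd, smul_eq_mul]
  nlinarith [mul_pos ha this]

lemma cap_bot {K : Set (ℝ × ℝ)} (hK : Convex ℝ K) {r ζ : ℝ} (h1 : ((1 : ℝ), (-1 : ℝ)) ∈ K)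
    (h4 : ((-1 : ℝ), (-1 : ℝ)) ∈ K) (hr : 0 ≤ r) (hZ : (ζ, -1 - r) ∈ K) :
    ENNReal.ofReal r ≤ volume (K ∩ {x | x.2 < -1}) := by
  refine cap hK h4 hZ h1 ?_ (t := r) (by simp only [tri, cr, Prod.fst_sub, Prod.snd_sub]; ring) hr
  intro hpos x hx
  obtain ⟨a, b, ha, hb, hab, rfl⟩ := mem_oTri.1 hx
  have : 0 < r := by
    simp only [tri, cr, Prod.fst_sub, Prod.snd_sub] at hpos
    nlinarith
  simp only [mem_ofPred_eq, Prod.snd_add, Prod.smul_snd, smul_eq_mul]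
  nlinarith [mul_pos ha this]

lemma square_subset {K : Set (ℝ × ℝ)} (hK : Lim2 K) :
    Ioo (-1 : ℝ) 1 ×ˢ Ioo (-1 : ℝ) 1 ⊆ K := by
  rintro ⟨x, y⟩ ⟨⟨hx1, hx2⟩, ⟨hy1, hy2⟩⟩
  simp only at hx1 hx2 hy1 hy2
  have t1 : (x, (1 : ℝ)) ∈ K := by
    have := hK.convex hK.p1 hK.p2 (a := (1 + x) / 2) (b := (1 - x) / 2) (by linarith)
      (by linarith) (by ring)
    convert this using 1
    ext <;> simp <;> ring
  have t2 : (x, (-1 : ℝ)) ∈ K := by
    have := hK.convex hK.p4 hK.p3 (a := (1 + x) / 2) (b := (1 - x) / 2) (by linarith)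
      (by linarith) (by ring)
    convert this using 1
    ext <;> simp <;> ring
  have := hK.convex t1 t2 (a := (1 + y) / 2) (b := (1 - y) / 2) (by linarith)
      (by linarith) (by ring)
  convert this using 1
  ext <;> simp <;> ring

lemma volume_square : volume (Ioo (-1 : ℝ) 1 ×ˢ Ioo (-1 : ℝ) 1) = ENNReal.ofReal 4 := by
  rw [Measure.volume_eq_prod, Measure.prod_prod, Real.volume_Ioo, ← ENNReal.ofReal_mul (by norm_num)]
  norm_num

/-- the data of the four excesses -/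
structure Ext (K : Set (ℝ × ℝ)) (r l t b ζ ζl η ηb : ℝ) : Prop where
  r0 : 0 ≤ r
  l0 : 0 ≤ l
  t0 : 0 ≤ t
  b0 : 0 ≤ b
  hr : (1 + r, ζ) ∈ K
  hl : (-1 - l, ζl) ∈ K
  ht : (η, 1 + t) ∈ K
  hb : (ηb, -1 - b) ∈ K
  box : ∀ x ∈ K, -1 - l ≤ x.1 ∧ x.1 ≤ 1 + r ∧ -1 - b ≤ x.2 ∧ x.2 ≤ 1 + t

lemma Lim2.exists_ext {K : Set (ℝ × ℝ)} (hK : Lim2 K) :
    ∃ r l t b ζ ζl η ηb : ℝ, Ext K r l t b ζ ζl η ηb := by
  have hne : K.Nonempty := ⟨_, hK.p1⟩
  obtain ⟨Zr, hZr, hMr⟩ := hK.compact.exists_isMaxOn hne (f := fun x : ℝ × ℝ => x.1) (by fun_prop)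
  obtain ⟨Zl, hZl, hMl⟩ := hK.compact.exists_isMinOn hne (f := fun x : ℝ × ℝ => x.1) (by fun_prop)
  obtain ⟨Zt, hZt, hMt⟩ := hK.compact.exists_isMaxOn hne (f := fun x : ℝ × ℝ => x.2) (by fun_prop)
  obtain ⟨Zb, hZb, hMb⟩ := hK.compact.exists_isMinOn hne (f := fun x : ℝ × ℝ => x.2) (by fun_prop)
  have gr : ∀ x ∈ K, x.1 ≤ Zr.1 := fun x hx => hMr hx
  have gl : ∀ x ∈ K, Zl.1 ≤ x.1 := fun x hx => hMl hx
  have gt : ∀ x ∈ K, x.2 ≤ Zt.2 := fun x hx => hMt hx
  have gb : ∀ x ∈ K, Zb.2 ≤ x.2 := fun x hx => hMb hx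
  refine ⟨Zr.1 - 1, -1 - Zl.1, Zt.2 - 1, -1 - Zb.2, Zr.2, Zl.2, Zt.1, Zb.1, ?_⟩
  constructor
  · linarith [gr _ hK.p1]
  · linarith [gl _ hK.p2]
  · linarith [gt _ hK.p1]
  · linarith [gb _ hK.p3]
  · convert hZr using 1; ext <;> simp
  · convert hZl using 1; ext <;> simp
  · convert hZt using 1; ext <;> simp
  · convert hZb using 1; ext <;> simp
  · intro x hx
    exact ⟨by linarith [gl x hx], by linarith [gr x hx], by linarith [gb x hx],
      by linarith [gt x hx]⟩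

lemma Lim2.area_sum {K : Set (ℝ × ℝ)} (hK : Lim2 K) {r l t b ζ ζl η ηb : ℝ}
    (hE : Ext K r l t b ζ ζl η ηb) :
    ENNReal.ofReal 4 + volume (K ∩ {x | 1 < x.1}) + ENNReal.ofReal l + ENNReal.ofReal t +
      ENNReal.ofReal b ≤ ENNReal.ofReal (4 * √2) := by
  have hKm : MeasurableSet K := hK.compact.isClosed.measurableSet
  have m1 : MeasurableSet {x : ℝ × ℝ | 1 < x.1} :=
    (isOpen_lt continuous_const continuous_fst).measurableSet
  have m2 : MeasurableSet {x : ℝ × ℝ | x.1 < -1} :=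
    (isOpen_lt continuous_fst continuous_const).measurableSet
  have m3 : MeasurableSet {x : ℝ × ℝ | 1 < x.2} :=
    (isOpen_lt continuous_const continuous_snd).measurableSet
  have m4 : MeasurableSet {x : ℝ × ℝ | x.2 < -1} :=
    (isOpen_lt continuous_snd continuous_const).measurableSet
  have m0 : MeasurableSet (Ioo (-1 : ℝ) 1 ×ˢ Ioo (-1 : ℝ) 1) :=
    measurableSet_Ioo.prod measurableSet_Ioo
  have hbd : ∀ x ∈ K, x.1 + x.2 ≤ 2 ∧ x.1 - x.2 ≤ 2 ∧ -x.1 + x.2 ≤ 2 ∧ -x.1 - x.2 ≤ 2 := by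
    intro x hx
    have := hK.bd x hx
    have a1 := le_abs_self x.1
    have a2 := neg_abs_le x.1
    have a3 := le_abs_self x.2
    have a4 := neg_abs_le x.2
    exact ⟨by linarith, by linarith, by linarith, by linarith⟩
  have hsum := sum_volume_le (K := K)
    ![Ioo (-1 : ℝ) 1 ×ˢ Ioo (-1 : ℝ) 1, K ∩ {x | 1 < x.1}, K ∩ {x | x.1 < -1}, K ∩ {x | 1 < x.2},
      K ∩ {x | x.2 < -1}]
    (by
      intro i; fin_cases i
      · exact m0
      · exact hKm.inter m1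
      · exact hKm.inter m2
      · exact hKm.inter m3
      · exact hKm.inter m4)
    (by
      intro i j hij
      rw [Set.disjoint_left]
      fin_cases i <;> fin_cases j <;> first
        | exact absurd rfl hij
        | (rintro x ⟨⟨a1, a2⟩, ⟨a3, a4⟩⟩ ⟨hx, h2⟩
           simp only [mem_ofPred_eq] at h2
           linarith)
        | (rintro x ⟨hx, h2⟩ ⟨⟨a1, a2⟩, ⟨a3, a4⟩⟩
           simp only [mem_ofPred_eq] at h2
           linarith)
        | (rintro x ⟨hx, h1⟩ ⟨_, h2⟩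
           obtain ⟨b1, b2, b3, b4⟩ := hbd x hx
           simp only [mem_ofPred_eq] at h1 h2
           linarith))
    (by
      intro i; fin_cases i
      · exact square_subset hK
      · exact inter_subset_left
      · exact inter_subset_left
      · exact inter_subset_left
      · exact inter_subset_left)
  simp only [Fin.sum_univ_five, Matrix.cons_val_zero, Matrix.cons_val_one,
      Matrix.cons_val_two, Matrix.head_cons, Matrix.tail_cons, Matrix.cons_val_three,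
      Matrix.cons_val_four, Matrix.cons_val] at hsum
  rw [volume_square] at hsum
  refine le_trans ?_ (hsum.trans hK.vol)
  gcongr
  · exact cap_left hK.convex hK.p2 hK.p3 hE.l0 hE.hl
  · exact cap_top hK.convex hK.p1 hK.p2 hE.t0 hE.ht
  · exact cap_bot hK.convex hK.p4 hK.p3 hE.b0 hE.hb

lemma Lim2.sums {K : Set (ℝ × ℝ)} (hK : Lim2 K) {r l t b ζ ζl η ηb : ℝ}
    (hE : Ext K r l t b ζ ζl η ηb) : 2 + r + l = 2 * √2 ∧ 2 + t + b = 2 * √2 := by
  have r0 := hE.r0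
  have l0 := hE.l0
  have t0 := hE.t0
  have b0 := hE.b0
  have h1 : 4 + r + l + t + b ≤ 4 * √2 := by
    have hs := hK.area_sum hE
    have hc := cap_right hK.convex hK.p1 hK.p4 hE.r0 hE.hr
    have : ENNReal.ofReal (4 + r + l + t + b) ≤ ENNReal.ofReal (4 * √2) := by
      rw [ENNReal.ofReal_add (by positivity) b0, ENNReal.ofReal_add (by positivity) t0,
        ENNReal.ofReal_add (by positivity) l0, ENNReal.ofReal_add (by positivity) r0]
      refine le_trans ?_ hs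
      gcongr
    exact (ENNReal.ofReal_le_ofReal_iff (by positivity)).1 this
  have h2 : 8 ≤ (2 + r + l) * (2 + t + b) := by
    have := allQ_key (by norm_num : (0 : ℝ) < 8) hK.allQ
      (p1 := (-1 - l, -1 - b)) (p2 := (1 + r, -1 - b)) (p3 := (1 + r, 1 + t)) (p4 := (-1 - l, 1 + t))
      (by
        have : tri (-1 - l, -1 - b) (1 + r, -1 - b) (1 + r, 1 + t) = (2 + r + l) * (2 + t + b) := by
          simp only [tri, cr, Prod.fst_sub, Prod.snd_sub]; ring
        rw [this]; positivity)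
      (by
        have : tri (-1 - l, -1 - b) (1 + r, 1 + t) (-1 - l, 1 + t) = (2 + r + l) * (2 + t + b) := by
          simp only [tri, cr, Prod.fst_sub, Prod.snd_sub]; ring
        rw [this]; positivity)
      (by
        have : tri (-1 - l, -1 - b) (1 + r, -1 - b) (-1 - l, 1 + t) = (2 + r + l) * (2 + t + b) := by
          simp only [tri, cr, Prod.fst_sub, Prod.snd_sub]; ring
        rw [this]; positivity)
      (by
        have : tri (1 + r, -1 - b) (1 + r, 1 + t) (-1 - l, 1 + t) = (2 + r + l) * (2 + t + b) := by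
          simp only [tri, cr, Prod.fst_sub, Prod.snd_sub]; ring
        rw [this]; positivity)
      (by
        intro x hx
        obtain ⟨a1, a2, a3, a4⟩ := hE.box x hx
        refine ⟨?_, ?_, ?_, ?_⟩
        · have : tri (-1 - l, -1 - b) (1 + r, -1 - b) x = (2 + r + l) * (x.2 - (-1 - b)) := by
            simp only [tri, cr, Prod.fst_sub, Prod.snd_sub]; ring
          rw [this]; apply mul_nonneg (by positivity); linarith
        · have : tri (1 + r, -1 - b) (1 + r, 1 + t) x = (2 + t + b) * (1 + r - x.1) := by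
            simp only [tri, cr, Prod.fst_sub, Prod.snd_sub]; ring
          rw [this]; apply mul_nonneg (by positivity); linarith
        · have : tri (1 + r, 1 + t) (-1 - l, 1 + t) x = (2 + r + l) * (1 + t - x.2) := by
            simp only [tri, cr, Prod.fst_sub, Prod.snd_sub]; ring
          rw [this]; apply mul_nonneg (by positivity); linarith
        · have : tri (-1 - l, 1 + t) (-1 - l, -1 - b) x = (2 + t + b) * (x.1 - (-1 - l)) := by
            simp only [tri, cr, Prod.fst_sub, Prod.snd_sub]; ring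
          rw [this]; apply mul_nonneg (by positivity); linarith)
    have e : cr ((1 + r, 1 + t) - (-1 - l, -1 - b)) ((-1 - l, 1 + t) - (1 + r, -1 - b)) / 2
        = (2 + r + l) * (2 + t + b) := by
      simp only [cr, Prod.fst_sub, Prod.snd_sub]; ring
    rwa [e] at this
  have hsq : √2 * √2 = 2 := Real.mul_self_sqrt (by norm_num)
  have hs0 : 0 < √2 := by positivity
  obtain ⟨X, hX⟩ : ∃ X, X = 2 + r + l := ⟨_, rfl⟩
  obtain ⟨Y, hY⟩ : ∃ Y, Y = 2 + t + b := ⟨_, rfl⟩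
  rw [← hX, ← hY] at h2
  rw [← hX, ← hY]
  have h3 : X + Y ≤ 4 * √2 := by linarith
  have hX0 : 0 < X := by rw [hX]; positivity
  have hY0 : 0 < Y := by rw [hY]; positivity
  have h4 : (X + Y) ^ 2 ≤ (4 * √2) ^ 2 := pow_le_pow_left₀ (by positivity) h3 2
  have h5 : (X - Y) ^ 2 ≤ 0 := by nlinarith
  have h6 : X - Y = 0 := by
    have := sq_nonneg (X - Y)
    have h7 : (X - Y) ^ 2 = 0 := le_antisymm h5 this
    exact pow_eq_zero_iff (two_ne_zero) |>.1 h7
  have h8 : X = Y := by linarith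
  rw [← h8] at h2 h3 ⊢
  have h9 : X ≤ 2 * √2 := by linarith
  have h10 : 2 * √2 ≤ X := by
    by_contra hlt
    push Not at hlt
    nlinarith
  exact ⟨le_antisymm h9 h10, le_antisymm h9 h10⟩

lemma Lim2.cap_vol {K : Set (ℝ × ℝ)} (hK : Lim2 K) {r l t b ζ ζl η ηb : ℝ}
    (hE : Ext K r l t b ζ ζl η ηb) : volume (K ∩ {x | 1 < x.1}) ≤ ENNReal.ofReal r := by
  have hs := hK.area_sum hE
  obtain ⟨h1, h2⟩ := hK.sums hE
  have r0 := hE.r0
  have l0 := hE.l0
  have t0 := hE.t0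
  have b0 := hE.b0
  have e : 4 * √2 = (4 + l + t + b) + r := by linarith
  rw [e, ENNReal.ofReal_add (by positivity) r0] at hs
  have e2 : ENNReal.ofReal 4 + volume (K ∩ {x | 1 < x.1}) + ENNReal.ofReal l + ENNReal.ofReal t +
      ENNReal.ofReal b = ENNReal.ofReal (4 + l + t + b) + volume (K ∩ {x | 1 < x.1}) := by
    rw [ENNReal.ofReal_add (by positivity) b0, ENNReal.ofReal_add (by positivity) t0,
      ENNReal.ofReal_add (by positivity) l0]
    ring
  rw [e2] at hs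
  exact ENNReal.le_of_add_le_add_left ENNReal.ofReal_ne_top hs

/-- the right cap is the triangle -/
lemma Lim2.cap_tri {K : Set (ℝ × ℝ)} (hK : Lim2 K) {r l t b ζ ζl η ηb : ℝ}
    (hE : Ext K r l t b ζ ζl η ηb) (hr : 0 < r) {z : ℝ × ℝ} (hz : z ∈ K) (hz1 : 1 < z.1) :
    z ∈ convexHull ℝ {((1 : ℝ), (-1 : ℝ)), (1 + r, ζ), ((1 : ℝ), (1 : ℝ))} := by
  by_contra hnot
  obtain ⟨C, hC⟩ : ∃ C, C = convexHull ℝ {((1 : ℝ), (-1 : ℝ)), (1 + r, ζ), ((1 : ℝ), (1 : ℝ))} :=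
    ⟨_, rfl⟩
  rw [← hC] at hnot
  have hCc : IsClosed C := by
    rw [hC]
    exact (Set.Finite.isCompact_convexHull ℝ (Set.toFinite _)).isClosed
  have hUo : IsOpen ({x : ℝ × ℝ | 1 < x.1} ∩ Cᶜ) :=
    (isOpen_lt continuous_const continuous_fst).inter hCc.isOpen_compl
  have hint : (interior K).Nonempty := by
    refine ⟨(0, 0), mem_interior.2 ⟨Ioo (-1 : ℝ) 1 ×ˢ Ioo (-1 : ℝ) 1, square_subset hK,
      isOpen_Ioo.prod isOpen_Ioo, ?_⟩⟩
    simp
  have hcl : K ⊆ closure (interior K) := by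
    rw [hK.convex.closure_interior_eq_closure_of_nonempty_interior hint]
    exact subset_closure
  have hmeet : (({x : ℝ × ℝ | 1 < x.1} ∩ Cᶜ) ∩ interior K).Nonempty :=
    mem_closure_iff.1 (hcl hz) _ hUo ⟨hz1, hnot⟩
  have hpos : 0 < volume (({x : ℝ × ℝ | 1 < x.1} ∩ Cᶜ) ∩ interior K) :=
    (hUo.inter isOpen_interior).measure_pos _ hmeet
  have ho : volume (oTri ((1 : ℝ), (-1 : ℝ)) (1 + r, ζ) ((1 : ℝ), (1 : ℝ))) = ENNReal.ofReal r := by
    rw [volume_oTri]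
    have : tri ((1 : ℝ), (-1 : ℝ)) (1 + r, ζ) ((1 : ℝ), (1 : ℝ)) = 2 * r := by
      simp only [tri, cr, Prod.fst_sub, Prod.snd_sub]; ring
    rw [this, abs_of_pos (by positivity)]; congr 1; ring
  have hoC : oTri ((1 : ℝ), (-1 : ℝ)) (1 + r, ζ) ((1 : ℝ), (1 : ℝ)) ⊆ C := by
    rw [hC]
    apply oTri_subset (convex_convexHull _ _) <;> apply subset_convexHull <;> simp
  have hd : Disjoint (oTri ((1 : ℝ), (-1 : ℝ)) (1 + r, ζ) ((1 : ℝ), (1 : ℝ)))
      (({x : ℝ × ℝ | 1 < x.1} ∩ Cᶜ) ∩ interior K) := by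
    rw [Set.disjoint_left]
    rintro x hx ⟨⟨_, h⟩, _⟩
    exact h (hoC hx)
  have hu := measure_union (μ := (volume : Measure (ℝ × ℝ))) hd
    (hUo.inter isOpen_interior).measurableSet
  have hsub : oTri ((1 : ℝ), (-1 : ℝ)) (1 + r, ζ) ((1 : ℝ), (1 : ℝ)) ∪
      (({x : ℝ × ℝ | 1 < x.1} ∩ Cᶜ) ∩ interior K) ⊆ K ∩ {x | 1 < x.1} := by
    rintro x (hx | ⟨⟨h1, _⟩, h2⟩)
    · refine ⟨oTri_subset hK.convex hK.p4 hE.hr hK.p1 hx, ?_⟩
      obtain ⟨a, b, ha, hb, hab, rfl⟩ := mem_oTri.1 hx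
      simp only [mem_ofPred_eq, Prod.fst_add, Prod.smul_fst, smul_eq_mul]
      nlinarith [mul_pos ha hr]
    · exact ⟨interior_subset h2, h1⟩
  have hle := (measure_mono hsub).trans (hK.cap_vol hE)
  rw [hu, ho] at hle
  have : volume (({x : ℝ × ℝ | 1 < x.1} ∩ Cᶜ) ∩ interior K) ≤ 0 := by
    apply ENNReal.le_of_add_le_add_left (a := ENNReal.ofReal r) ENNReal.ofReal_ne_top
    simpa using hle
  exact absurd hpos (not_lt.2 this)

/-- tilted support lines at the right extreme point -/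
lemma Lim2.support {K : Set (ℝ × ℝ)} (hK : Lim2 K) {r l t b ζ ζl η ηb : ℝ}
    (hE : Ext K r l t b ζ ζl η ηb) (hr : 0 < r) {θ : ℝ} (hθ : 3 * |θ| ≤ r) :
    ∀ z ∈ K, z.1 - θ * z.2 ≤ 1 + r - θ * ζ := by
  have hζ : |ζ| ≤ 1 := by
    have := hK.bd _ hE.hr
    simp only at this
    have h2 : |1 + r| = 1 + r := abs_of_pos (by linarith)
    rw [h2] at this
    linarith
  have hθζ : |θ * ζ| ≤ |θ| := by
    rw [abs_mul]; exact mul_le_of_le_one_right (abs_nonneg _) hζ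
  have e1 := abs_le.1 hθζ
  have e2 := neg_abs_le θ
  have e3 := le_abs_self θ
  have e0 := abs_nonneg θ
  intro z hz
  rcases le_or_gt z.1 1 with h | h
  · have hz2 : |z.2| ≤ 2 := by
      have := hK.bd z hz
      linarith [abs_nonneg z.1]
    have h3 : |θ * z.2| ≤ 2 * |θ| := by
      rw [abs_mul]; nlinarith [abs_nonneg z.2]
    have h4 := abs_le.1 h3
    linarith
  · have hmem := hK.cap_tri hE hr hz h
    have hconv : Convex ℝ {x : ℝ × ℝ | x.1 - θ * x.2 ≤ 1 + r - θ * ζ} := by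
      intro x hx y hy a b ha hb hab
      simp only [mem_ofPred_eq, Prod.fst_add, Prod.snd_add, Prod.smul_fst, Prod.smul_snd,
        smul_eq_mul] at hx hy ⊢
      have h1 := mul_le_mul_of_nonneg_left hx ha
      have h2 := mul_le_mul_of_nonneg_left hy hb
      have h3 : (a + b) * (1 + r - θ * ζ) = 1 + r - θ * ζ := by rw [hab, one_mul]
      nlinarith
    have hsub : convexHull ℝ {((1 : ℝ), (-1 : ℝ)), (1 + r, ζ), ((1 : ℝ), (1 : ℝ))}
        ⊆ {x : ℝ × ℝ | x.1 - θ * x.2 ≤ 1 + r - θ * ζ} := by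
      apply convexHull_min _ hconv
      intro x hx
      simp only [mem_insert_iff, mem_singleton_iff] at hx
      rcases hx with rfl | rfl | rfl
      · simp only [mem_ofPred_eq]; linarith
      · simp only [mem_ofPred_eq]; linarith
      · simp only [mem_ofPred_eq]; linarith
    exact hsub hmem

end Pool.Agent.NH81.Quad
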