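import Pool.Agent.NH81.Quad.Limit2

/-!
The second form of the limit body leads to a contradiction (end of the argument).
-/

open MeasureTheory Set
open scoped ENNReal

namespace Pool.Agent.NH81.Quad

lemma Lim2.sym {K : Set (ℝ × ℝ)} (hK : Lim2 K) {u w : ℝ × ℝ} (h : |cr u w| = 1)
    (h1 : aff 0 u w ((1 : ℝ), (1 : ℝ)) ∈ K) (h2 : aff 0 u w ((-1 : ℝ), (1 : ℝ)) ∈ K)
    (h3 : aff 0 u w ((-1 : ℝ), (-1 : ℝ)) ∈ K) (h4 : aff 0 u w ((1 : ℝ), (-1 : ℝ)) ∈ K)
    (hbd : ∀ z : ℝ × ℝ, |(aff 0 u w z).1| + |(aff 0 u w z).2| ≤ 2 → |z.1| + |z.2| ≤ 2) :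
    Lim2 (aff 0 u w ⁻¹' K) := by
  have h0 : cr u w ≠ 0 := by intro h'; rw [h'] at h; norm_num at h
  refine ⟨convex_preimage_aff hK.convex _ _ _, isCompact_preimage_aff hK.compact h0, h1, h2, h3, h4,
    fun x hx => hbd x (hK.bd _ hx), ?_, ?_⟩
  · have := volume_preimage_aff (O := 0) h0 K
    rw [h, ENNReal.ofReal_one, one_mul] at this
    rw [← this]; exact hK.vol
  · have := hK.allQ.preimage (O := 0) h0
    rwa [h, div_one] at this

lemma aff_swap (z : ℝ × ℝ) : aff 0 (0, 1) (1, 0) z = (z.2, z.1) := by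
  ext <;> simp [aff]

lemma aff_rx (z : ℝ × ℝ) : aff 0 (-1, 0) (0, 1) z = (-z.1, z.2) := by
  ext <;> simp [aff]

lemma aff_ry (z : ℝ × ℝ) : aff 0 (1, 0) (0, -1) z = (z.1, -z.2) := by
  ext <;> simp [aff]

lemma Lim2.swap {K : Set (ℝ × ℝ)} (hK : Lim2 K) : Lim2 (aff 0 (0, 1) (1, 0) ⁻¹' K) := by
  apply hK.sym
  · simp [cr]
  · rw [aff_swap]; exact hK.p1
  · rw [aff_swap]; exact hK.p4
  · rw [aff_swap]; exact hK.p3
  · rw [aff_swap]; exact hK.p2
  · intro z hz; rw [aff_swap] at hz; simp only at hz; linarith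

lemma Lim2.rx {K : Set (ℝ × ℝ)} (hK : Lim2 K) : Lim2 (aff 0 (-1, 0) (0, 1) ⁻¹' K) := by
  apply hK.sym
  · simp [cr]
  · rw [aff_rx]; exact hK.p2
  · rw [aff_rx]; simpa using hK.p1
  · rw [aff_rx]; simpa using hK.p4
  · rw [aff_rx]; exact hK.p3
  · intro z hz; rw [aff_rx] at hz; simpa only [abs_neg] using hz

lemma Lim2.ry {K : Set (ℝ × ℝ)} (hK : Lim2 K) : Lim2 (aff 0 (1, 0) (0, -1) ⁻¹' K) := by
  apply hK.sym
  · simp [cr]
  · rw [aff_ry]; exact hK.p4
  · rw [aff_ry]; exact hK.p3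
  · rw [aff_ry]; simpa using hK.p2
  · rw [aff_ry]; simpa using hK.p1
  · intro z hz; rw [aff_ry] at hz; simpa only [abs_neg] using hz

lemma Ext.swap {K : Set (ℝ × ℝ)} {r l t b ζ ζl η ηb : ℝ} (hE : Ext K r l t b ζ ζl η ηb) :
    Ext (aff 0 (0, 1) (1, 0) ⁻¹' K) t b r l η ηb ζ ζl := by
  refine ⟨hE.t0, hE.b0, hE.r0, hE.l0, ?_, ?_, ?_, ?_, ?_⟩
  · show aff _ _ _ _ ∈ K; rw [aff_swap]; exact hE.ht
  · show aff _ _ _ _ ∈ K; rw [aff_swap]; exact hE.hb
  · show aff _ _ _ _ ∈ K; rw [aff_swap]; exact hE.hr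
  · show aff _ _ _ _ ∈ K; rw [aff_swap]; exact hE.hl
  · intro x hx
    have hx' : aff 0 (0, 1) (1, 0) x ∈ K := hx
    rw [aff_swap] at hx'
    obtain ⟨a1, a2, a3, a4⟩ := hE.box _ hx'
    exact ⟨a3, a4, a1, a2⟩

lemma Ext.rx {K : Set (ℝ × ℝ)} {r l t b ζ ζl η ηb : ℝ} (hE : Ext K r l t b ζ ζl η ηb) :
    Ext (aff 0 (-1, 0) (0, 1) ⁻¹' K) l r t b ζl ζ (-η) (-ηb) := by
  refine ⟨hE.l0, hE.r0, hE.t0, hE.b0, ?_, ?_, ?_, ?_, ?_⟩
  · show aff _ _ _ _ ∈ K; rw [aff_rx]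
    convert hE.hl using 2; ring
  · show aff _ _ _ _ ∈ K; rw [aff_rx]
    convert hE.hr using 2; ring
  · show aff _ _ _ _ ∈ K; rw [aff_rx]
    convert hE.ht using 2; ring
  · show aff _ _ _ _ ∈ K; rw [aff_rx]
    convert hE.hb using 2; ring
  · intro x hx
    have hx' : aff 0 (-1, 0) (0, 1) x ∈ K := hx
    rw [aff_rx] at hx'
    obtain ⟨a1, a2, a3, a4⟩ := hE.box _ hx'
    simp only at a1 a2 a3 a4
    exact ⟨by linarith, by linarith, a3, a4⟩

lemma Ext.ry {K : Set (ℝ × ℝ)} {r l t b ζ ζl η ηb : ℝ} (hE : Ext K r l t b ζ ζl η ηb) :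
    Ext (aff 0 (1, 0) (0, -1) ⁻¹' K) r l b t (-ζ) (-ζl) ηb η := by
  refine ⟨hE.r0, hE.l0, hE.b0, hE.t0, ?_, ?_, ?_, ?_, ?_⟩
  · show aff _ _ _ _ ∈ K; rw [aff_ry]
    convert hE.hr using 2; ring
  · show aff _ _ _ _ ∈ K; rw [aff_ry]
    convert hE.hl using 2; ring
  · show aff _ _ _ _ ∈ K; rw [aff_ry]
    convert hE.hb using 2; ring
  · show aff _ _ _ _ ∈ K; rw [aff_ry]
    convert hE.ht using 2; ring
  · intro x hx
    have hx' : aff 0 (1, 0) (0, -1) x ∈ K := hx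
    rw [aff_ry] at hx'
    obtain ⟨a1, a2, a3, a4⟩ := hE.box _ hx'
    simp only at a1 a2 a3 a4
    exact ⟨a1, a2, by linarith, by linarith⟩

/-- bounds on the excesses -/
lemma Lim2.bounds {K : Set (ℝ × ℝ)} (hK : Lim2 K) {r l t b ζ ζl η ηb : ℝ}
    (hE : Ext K r l t b ζ ζl η ηb) : r ≤ 1 ∧ l ≤ 1 ∧ t ≤ 1 ∧ b ≤ 1 ∧ |ζ| ≤ 1 ∧ |η| ≤ 1 := by
  have r0 := hE.r0
  have l0 := hE.l0
  have t0 := hE.t0
  have b0 := hE.b0
  have h1 := hK.bd _ hE.hr
  have h2 := hK.bd _ hE.hl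
  have h3 := hK.bd _ hE.ht
  have h4 := hK.bd _ hE.hb
  simp only at h1 h2 h3 h4
  rw [abs_of_pos (by linarith : 0 < 1 + r)] at h1
  rw [abs_of_neg (by linarith : -1 - l < 0)] at h2
  rw [abs_of_pos (by linarith : 0 < 1 + t)] at h3
  rw [abs_of_neg (by linarith : -1 - b < 0)] at h4
  have := abs_nonneg ζ
  have := abs_nonneg ζl
  have := abs_nonneg η
  have := abs_nonneg ηb
  refine ⟨?_, ?_, ?_, ?_, ?_, ?_⟩ <;> linarith

lemma Lim2.tilt {K : Set (ℝ × ℝ)} (hK : Lim2 K) {r l t b ζ ζl η ηb : ℝ}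
    (hE : Ext K r l t b ζ ζl η ηb) (hr : 0 < r) {θ : ℝ} (hθ : 3 * |θ| ≤ r) :
    0 ≤ θ * (t - b - 2 * ζ) := by
  have hsup := hK.support hE hr hθ
  obtain ⟨s1, s2⟩ := hK.sums hE
  obtain ⟨b1, b2, b3, b4, b5, _⟩ := hK.bounds hE
  have r0 := hE.r0
  have l0 := hE.l0
  have t0 := hE.t0
  have b0 := hE.b0
  have hθ1 : |θ| ≤ 1 / 3 := by linarith
  have hζ := abs_le.1 b5
  obtain ⟨g, hg⟩ : ∃ g, g = 1 + r + θ * (-1 - b - ζ) := ⟨_, rfl⟩
  obtain ⟨h, hh⟩ : ∃ h, h = 1 + r + θ * (1 + t - ζ) := ⟨_, rfl⟩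
  have k1 : |θ * (-1 - b - ζ)| ≤ 1 := by
    rw [abs_mul]
    have : |(-1 - b - ζ)| ≤ 3 := by rw [abs_le]; constructor <;> linarith
    calc |θ| * |(-1 - b - ζ)| ≤ (1 / 3) * 3 := by gcongr
      _ = 1 := by norm_num
  have k2 : |θ * (1 + t - ζ)| ≤ 1 := by
    rw [abs_mul]
    have : |(1 + t - ζ)| ≤ 3 := by rw [abs_le]; constructor <;> linarith
    calc |θ| * |(1 + t - ζ)| ≤ (1 / 3) * 3 := by gcongr
      _ = 1 := by norm_num
  have hg0 : 0 < g + 1 + l := by have := (abs_le.1 k1).1; linarith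
  have hh0 : 0 < h + 1 + l := by have := (abs_le.1 k2).1; linarith
  have hw : 0 < 2 + t + b := by linarith
  have hkey := allQ_key (by norm_num : (0 : ℝ) < 8) hK.allQ
    (p1 := (-1 - l, -1 - b)) (p2 := (g, -1 - b)) (p3 := (h, 1 + t)) (p4 := (-1 - l, 1 + t))
    (by
      have : tri (-1 - l, -1 - b) (g, -1 - b) (h, 1 + t) = (g + 1 + l) * (2 + t + b) := by
        simp only [tri, cr, Prod.fst_sub, Prod.snd_sub]; ring
      rw [this]; positivity)
    (by
      have : tri (-1 - l, -1 - b) (h, 1 + t) (-1 - l, 1 + t) = (h + 1 + l) * (2 + t + b) := by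
        simp only [tri, cr, Prod.fst_sub, Prod.snd_sub]; ring
      rw [this]; positivity)
    (by
      have : tri (-1 - l, -1 - b) (g, -1 - b) (-1 - l, 1 + t) = (g + 1 + l) * (2 + t + b) := by
        simp only [tri, cr, Prod.fst_sub, Prod.snd_sub]; ring
      rw [this]; positivity)
    (by
      have : tri (g, -1 - b) (h, 1 + t) (-1 - l, 1 + t) = (h + 1 + l) * (2 + t + b) := by
        simp only [tri, cr, Prod.fst_sub, Prod.snd_sub]; ring
      rw [this]; positivity)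
    (by
      intro x hx
      obtain ⟨a1, a2, a3, a4⟩ := hE.box x hx
      refine ⟨?_, ?_, ?_, ?_⟩
      · have : tri (-1 - l, -1 - b) (g, -1 - b) x = (g + 1 + l) * (x.2 - (-1 - b)) := by
          simp only [tri, cr, Prod.fst_sub, Prod.snd_sub]; ring
        rw [this]; apply mul_nonneg hg0.le; linarith
      · have : tri (g, -1 - b) (h, 1 + t) x
            = (2 + t + b) * ((1 + r - θ * ζ) - (x.1 - θ * x.2)) := by
          simp only [tri, cr, Prod.fst_sub, Prod.snd_sub]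
          rw [hg, hh]; ring
        rw [this]; apply mul_nonneg hw.le; linarith [hsup x hx]
      · have : tri (h, 1 + t) (-1 - l, 1 + t) x = (h + 1 + l) * (1 + t - x.2) := by
          simp only [tri, cr, Prod.fst_sub, Prod.snd_sub]; ring
        rw [this]; apply mul_nonneg hh0.le; linarith
      · have : tri (-1 - l, 1 + t) (-1 - l, -1 - b) x = (2 + t + b) * (x.1 - (-1 - l)) := by
          simp only [tri, cr, Prod.fst_sub, Prod.snd_sub]; ring
        rw [this]; apply mul_nonneg hw.le; linarith)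
  have e : cr ((h, 1 + t) - (-1 - l, -1 - b)) ((-1 - l, 1 + t) - (g, -1 - b)) / 2
      = (2 + t + b) * (2 + r + l) + (2 + t + b) / 2 * (θ * (t - b - 2 * ζ)) := by
    simp only [cr, Prod.fst_sub, Prod.snd_sub]
    rw [hg, hh]; ring
  rw [e, s1, s2] at hkey
  have hsq : √2 * √2 = 2 := Real.mul_self_sqrt (by norm_num)
  have h3 : 0 ≤ √2 * (θ * (t - b - 2 * ζ)) := by nlinarith
  by_contra hneg
  push Not at hneg
  have : √2 * (θ * (t - b - 2 * ζ)) < 0 := mul_neg_of_pos_of_neg (by positivity) hneg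
  linarith

lemma Lim2.centre {K : Set (ℝ × ℝ)} (hK : Lim2 K) {r l t b ζ ζl η ηb : ℝ}
    (hE : Ext K r l t b ζ ζl η ηb) (hr : 0 < r) : ζ = (t - b) / 2 := by
  have h1 := hK.tilt hE hr (θ := r / 3) (by rw [abs_of_pos (by positivity)]; linarith)
  have h2 := hK.tilt hE hr (θ := -(r / 3)) (by rw [abs_neg, abs_of_pos (by positivity)]; linarith)
  have h3 : r / 3 * (t - b - 2 * ζ) = 0 := by linarith
  rcases mul_eq_zero.1 h3 with h | h
  · linarith
  · linarith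

set_option maxHeartbeats 8000000 in
lemma Lim2.false_of_pos {K : Set (ℝ × ℝ)} (hK : Lim2 K) {r l t b ζ ζl η ηb : ℝ}
    (hE : Ext K r l t b ζ ζl η ηb) (hr : 0 < r) (ht : 0 < t) : False := by
  obtain ⟨θ, hθ⟩ : ∃ θ, θ = min r t / 3 := ⟨_, rfl⟩
  have hθ0 : 0 < θ := by rw [hθ]; have := lt_min hr ht; positivity
  have hθr : 3 * θ ≤ r := by rw [hθ]; have := min_le_left r t; linarith
  have hθt : 3 * θ ≤ t := by rw [hθ]; have := min_le_right r t; linarith
  have sup1 := hK.support hE hr (θ := θ) (by rw [abs_of_pos hθ0]; exact hθr)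
  have sup2' := hK.swap.support hE.swap ht (θ := -θ) (by rw [abs_neg, abs_of_pos hθ0]; exact hθt)
  have sup2 : ∀ z ∈ K, z.2 + θ * z.1 ≤ 1 + t + θ * η := by
    intro z hz
    have := sup2' (z.2, z.1) (by show aff _ _ _ _ ∈ K; rw [aff_swap]; exact hz)
    simp only at this
    linarith
  have hζ := hK.centre hE hr
  have hη := hK.swap.centre hE.swap ht
  obtain ⟨s1, s2⟩ := hK.sums hE
  obtain ⟨b1, b2, b3, b4, b5, _⟩ := hK.bounds hE
  have hsq : √2 * √2 = 2 := Real.mul_self_sqrt (by norm_num)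
  obtain ⟨H, hH⟩ : ∃ H, H = √2 := ⟨_, rfl⟩
  have hH0 : 0 < H := by rw [hH]; positivity
  rw [← hH] at hsq s1 s2
  have hθ1 : θ ≤ 1 / 3 := by linarith
  -- coordinates of the rectangle
  have f1 : 1 + r = η + H := by rw [hη]; linarith
  have f2 : -1 - l = η - H := by rw [hη]; linarith
  have f3 : 1 + t = ζ + H := by rw [hζ]; linarith
  have f4 : -1 - b = ζ - H := by rw [hζ]; linarith
  have hden : 0 < 1 + θ ^ 2 := by positivity
  obtain ⟨C1, hC1⟩ : ∃ C1, C1 = H * (1 + θ) / (1 + θ ^ 2) := ⟨_, rfl⟩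
  obtain ⟨C2, hC2⟩ : ∃ C2, C2 = H * (1 - θ) / (1 + θ ^ 2) := ⟨_, rfl⟩
  have hC10 : 0 < C1 := by rw [hC1]; positivity
  have hC20 : 0 < C2 := by
    rw [hC2]; apply div_pos _ hden; apply mul_pos hH0; linarith
  have g1 : C1 - H * (1 - θ) = θ * (C2 + H) := by
    rw [hC1, hC2]; field_simp; ring
  have g2 : H * (1 + θ) - C2 = θ * (C1 + H) := by
    rw [hC1, hC2]; field_simp; ring
  have g3 : C2 + θ * C1 = H := by
    rw [hC1, hC2]; field_simp; ring
  have q1 : 0 < H * (2 - θ) := by apply mul_pos hH0; linarith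
  have q2 : 0 < H * (2 + θ) := by positivity
  have hkey := allQ_key (by norm_num : (0 : ℝ) < 8) hK.allQ
    (p1 := (η - H, ζ - H)) (p2 := (η + H * (1 - θ), ζ - H)) (p3 := (η + C1, ζ + C2))
    (p4 := (η - H, ζ + H * (1 + θ)))
    (by
      have : tri (η - H, ζ - H) (η + H * (1 - θ), ζ - H) (η + C1, ζ + C2)
          = (H * (2 - θ)) * (C2 + H) := by
        simp only [tri, cr, Prod.fst_sub, Prod.snd_sub]; ring
      rw [this]; positivity)
    (by
      have : tri (η - H, ζ - H) (η + C1, ζ + C2) (η - H, ζ + H * (1 + θ))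
          = (H * (2 + θ)) * (C1 + H) := by
        simp only [tri, cr, Prod.fst_sub, Prod.snd_sub]; ring
      rw [this]; positivity)
    (by
      have : tri (η - H, ζ - H) (η + H * (1 - θ), ζ - H) (η - H, ζ + H * (1 + θ))
          = (H * (2 - θ)) * (H * (2 + θ)) := by
        simp only [tri, cr, Prod.fst_sub, Prod.snd_sub]; ring
      rw [this]; positivity)
    (by
      have : tri (η + H * (1 - θ), ζ - H) (η + C1, ζ + C2) (η - H, ζ + H * (1 + θ))
          = (C2 + H) * (H * (2 + θ + θ ^ 2)) := by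
        simp only [tri, cr, Prod.fst_sub, Prod.snd_sub]
        have e1 : η + C1 - (η + H * (1 - θ)) = θ * (C2 + H) := by rw [← g1]; ring
        rw [e1]; ring
      rw [this]; positivity)
    (by
      intro x hx
      obtain ⟨a1, a2, a3, a4⟩ := hE.box x hx
      refine ⟨?_, ?_, ?_, ?_⟩
      · have : tri (η - H, ζ - H) (η + H * (1 - θ), ζ - H) x
            = (H * (2 - θ)) * (x.2 - (ζ - H)) := by
          simp only [tri, cr, Prod.fst_sub, Prod.snd_sub]; ring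
        rw [this]; apply mul_nonneg q1.le; linarith
      · have : tri (η + H * (1 - θ), ζ - H) (η + C1, ζ + C2) x
            = (C2 + H) * ((η + H - θ * ζ) - (x.1 - θ * x.2)) := by
          simp only [tri, cr, Prod.fst_sub, Prod.snd_sub]
          have e1 : η + C1 - (η + H * (1 - θ)) = θ * (C2 + H) := by rw [← g1]; ring
          rw [e1]; ring
        rw [this]; apply mul_nonneg (by positivity); linarith [sup1 x hx]
      · have : tri (η + C1, ζ + C2) (η - H, ζ + H * (1 + θ)) x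
            = (C1 + H) * ((ζ + H + θ * η) - (x.2 + θ * x.1)) := by
          simp only [tri, cr, Prod.fst_sub, Prod.snd_sub]
          have e1 : ζ + H * (1 + θ) - (ζ + C2) = θ * (C1 + H) := by rw [← g2]; ring
          rw [e1]
          linear_combination (C1 + H) * g3
        rw [this]; apply mul_nonneg (by positivity); linarith [sup2 x hx]
      · have : tri (η - H, ζ + H * (1 + θ)) (η - H, ζ - H) x
            = (H * (2 + θ)) * (x.1 - (η - H)) := by
          simp only [tri, cr, Prod.fst_sub, Prod.snd_sub]; ring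
        rw [this]; apply mul_nonneg q2.le; linarith)
  have e : cr ((η + C1, ζ + C2) - (η - H, ζ - H)) ((η - H, ζ + H * (1 + θ)) - (η + H * (1 - θ), ζ - H))
      / 2 = (H * H) * (4 + 3 * θ ^ 2) / (1 + θ ^ 2) := by
    simp only [cr, Prod.fst_sub, Prod.snd_sub]
    rw [hC1, hC2]; field_simp; ring
  rw [e, hsq, le_div_iff₀ hden] at hkey
  nlinarith [sq_pos_of_pos hθ0]

theorem Lim2.false {K : Set (ℝ × ℝ)} (hK : Lim2 K) : False := by
  obtain ⟨r, l, t, b, ζ, ζl, η, ηb, hE⟩ := hK.exists_ext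
  obtain ⟨s1, s2⟩ := hK.sums hE
  have hs : 1 < √2 := by
    rw [show (1 : ℝ) = √1 by simp]; exact Real.sqrt_lt_sqrt (by norm_num) (by norm_num)
  have h1 : 0 < r ∨ 0 < l := by
    by_contra h; push Not at h; linarith
  have h2 : 0 < t ∨ 0 < b := by
    by_contra h; push Not at h; linarith
  rcases h1 with h1 | h1 <;> rcases h2 with h2 | h2
  · exact hK.false_of_pos hE h1 h2
  · exact hK.ry.false_of_pos hE.ry h1 h2
  · exact hK.rx.false_of_pos hE.rx h1 h2
  · exact hK.rx.ry.false_of_pos hE.rx.ry h1 h2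

theorem Lim.false {K : Set (ℝ × ℝ)} (hK : Lim K) : False := hK.toLim2.false

end Pool.Agent.NH81.Quad
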