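import Pool.Agent.NH81.Quad.Compact

/-!
The main theorem in the plane `ℝ × ℝ`.
-/

open MeasureTheory Set Filter Topology
open scoped ENNReal

namespace Pool.Agent.NH81.Quad

lemma aff_quad' (O u w : ℝ × ℝ) (p : Fin 4 → ℝ × ℝ) :
    aff O u w '' quad p = quad (fun i => aff O u w (p i)) := aff_quad O u w p

theorem no_seq {K : ℕ → Set (ℝ × ℝ)} (hcv : ∀ n, Convex ℝ (K n)) (hcl : ∀ n, IsClosed (K n))
    (hbox : ∀ n, ∀ x ∈ K n, |x.1| ≤ 1 ∧ |x.2| ≤ 1) {m c : ℕ → ℝ}
    (hvol : ∀ n, volume (K n) = ENNReal.ofReal (m n)) (hc : Tendsto c atTop (𝓝 √2))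
    (hc1 : ∀ n, 1 < c n) (h1 : ∀ n, 2 * c n ≤ m n) (h2 : ∀ n, c n * m n ≤ 4)
    (hQ : ∀ n, AllQ (K n) (c n * m n)) : False := by
  obtain ⟨U, hU⟩ : ∃ U : Ultrafilter ℕ, (U : Filter ℕ) ≤ atTop := by
    exact ⟨Ultrafilter.of atTop, Ultrafilter.of_le _⟩
  have hcU : Tendsto c (U : Filter ℕ) (𝓝 √2) := hc.mono_left hU
  obtain ⟨L, hL⟩ : ∃ L, L = ulim U K := ⟨_, rfl⟩
  have Lconv : Convex ℝ L := hL ▸ ulim_convex hcv
  have Lcomp : IsCompact L := hL ▸ ulim_compact hbox
  have Lbox : ∀ x ∈ L, |x.1| ≤ 1 ∧ |x.2| ≤ 1 := hL ▸ ulim_box hbox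
  have Lout : ∀ ε > 0, ∀ᶠ n in (U : Filter ℕ), K n ⊆ Metric.thickening ε L :=
    fun ε hε => hL ▸ ulim_outer hbox hε
  have Lin : ∀ ε > 0, ∀ᶠ n in (U : Filter ℕ), L ⊆ Metric.thickening ε (K n) :=
    fun ε hε => hL ▸ ulim_inner hbox hε
  -- positive measure
  have hpos : 1 ≤ volume L := by
    have ht := tendsto_measure_cthickening_of_isCompact (μ := (volume : Measure (ℝ × ℝ))) Lcomp
    have ht' := ht.mono_left (nhdsWithin_le_nhds (s := Ioi (0 : ℝ)))
    refine ge_of_tendsto ht' ?_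
    filter_upwards [self_mem_nhdsWithin] with ε hε
    obtain ⟨n, hn⟩ := (Lout ε hε).exists
    calc (1 : ℝ≥0∞) = ENNReal.ofReal 1 := by simp
      _ ≤ ENNReal.ofReal (m n) := ENNReal.ofReal_le_ofReal (by linarith [h1 n, hc1 n])
      _ = volume (K n) := (hvol n).symm
      _ ≤ _ := measure_mono (hn.trans (Metric.thickening_subset_cthickening _ _))
  have hint : (interior L).Nonempty := by
    by_contra h
    rw [Set.not_nonempty_iff_eq_empty] at h
    have h3 : L ⊆ frontier L := by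
      intro x hx
      exact ⟨subset_closure hx, by rw [h]; simp⟩
    have h4 := measure_mono (μ := (volume : Measure (ℝ × ℝ))) h3
    rw [Lconv.addHaar_frontier volume] at h4
    have : (1 : ℝ≥0∞) ≤ 0 := hpos.trans h4
    exact absurd this (by simp)
  obtain ⟨x0, hx0⟩ := hint
  obtain ⟨ρ', hρ', hball'⟩ := Metric.isOpen_iff.1 isOpen_interior x0 hx0
  obtain ⟨ρ, hρdef⟩ : ∃ ρ, ρ = ρ' / 2 := ⟨_, rfl⟩
  have hρ : 0 < ρ := by rw [hρdef]; positivity
  have hball : Metric.closedBall x0 ρ ⊆ L :=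
    (Metric.closedBall_subset_ball (by rw [hρdef]; linarith)).trans
      (hball'.trans interior_subset)
  have Lfin : volume L ≠ ⊤ := Lcomp.measure_lt_top.ne
  obtain ⟨V, hV⟩ : ∃ V, V = (volume L).toReal := ⟨_, rfl⟩
  have hVL : volume L = ENNReal.ofReal V := by rw [hV, ENNReal.ofReal_toReal Lfin]
  have hV0 : 0 ≤ V := by rw [hV]; exact ENNReal.toReal_nonneg
  -- upper bound of the area
  have hup : V ≤ 2 * √2 := by
    have step : ∀ t : ℝ, 0 < t → t ≤ 1 → (1 - t) ^ 2 * V * √2 ≤ 4 := by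
      intro t ht0 ht1
      have hev := Lin (t * ρ) (by positivity)
      have h3 : ∀ᶠ n in (U : Filter ℕ), (1 - t) ^ 2 * V * c n ≤ 4 := by
        filter_upwards [hev] with n hn
        have hsub : hom x0 (1 - t) '' L ⊆ K n := by
          rintro _ ⟨k, hk, rfl⟩
          have := inner_sandwich (hcv n) (hcl n) hρ hball hn ht0.le ht1 rfl k hk
          rw [hom_apply]
          convert this using 1
          rw [show 1 - (1 - t) = t by ring, add_comm]
        have h4 := measure_mono (μ := (volume : Measure (ℝ × ℝ))) hsub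
        rw [volume_hom_image, hvol n, hVL, ← ENNReal.ofReal_mul (by positivity)] at h4
        have hm0 : 0 ≤ m n := by linarith [h1 n, hc1 n]
        have h5 := (ENNReal.ofReal_le_ofReal_iff hm0).1 h4
        have hc0 : 0 ≤ c n := by linarith [hc1 n]
        calc (1 - t) ^ 2 * V * c n ≤ m n * c n := mul_le_mul_of_nonneg_right h5 hc0
          _ ≤ 4 := by linarith [h2 n, mul_comm (m n) (c n)]
      exact le_of_tendsto (hcU.const_mul _) h3
    have hlim : Tendsto (fun t : ℝ => (1 - t) ^ 2 * V * √2) (𝓝[>] 0)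
        (𝓝 ((1 - 0) ^ 2 * V * √2)) := by
      have hcont : Continuous (fun t : ℝ => (1 - t) ^ 2 * V * √2) := by fun_prop
      exact (hcont.tendsto 0).mono_left nhdsWithin_le_nhds
    have h3 : (1 - 0) ^ 2 * V * √2 ≤ 4 := by
      refine le_of_tendsto hlim ?_
      have : Ioo (0 : ℝ) 1 ∈ 𝓝[>] (0 : ℝ) := Ioo_mem_nhdsGT (by norm_num)
      filter_upwards [this] with t ht
      exact step t ht.1 ht.2.le
    have hsq : √2 * √2 = 2 := Real.mul_self_sqrt (by norm_num)
    have hs0 : 0 < √2 := by positivity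
    by_contra hcon
    push Not at hcon
    nlinarith
  -- lower bound of quadrilaterals
  have hall : AllQ L 4 := by
    intro p hp
    have hQfin : volume (quad p) ≠ ⊤ :=
      (Set.Finite.isCompact_convexHull ℝ (Set.finite_range p)).measure_lt_top.ne
    obtain ⟨W, hW⟩ : ∃ W, W = (volume (quad p)).toReal := ⟨_, rfl⟩
    have hWQ : volume (quad p) = ENNReal.ofReal W := by rw [hW, ENNReal.ofReal_toReal hQfin]
    have hW0 : 0 ≤ W := by rw [hW]; exact ENNReal.toReal_nonneg
    have step : ∀ t : ℝ, 0 < t → 2 * √2 ^ 2 ≤ (1 + t) ^ 2 * W := by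
      intro t ht0
      have hev := Lout (t * ρ) (by positivity)
      have h3 : ∀ᶠ n in (U : Filter ℕ), 2 * c n ^ 2 ≤ (1 + t) ^ 2 * W := by
        filter_upwards [hev] with n hn
        have h4 : Metric.thickening (t * ρ) L ⊆ Metric.thickening (t * ρ) (quad p) :=
          Metric.thickening_subset_of_subset _ hp
        have h5 := outer_sandwich (convex_convexHull ℝ (Set.range p)) (x0 := x0) hρ
          (by positivity : 0 < t * ρ) (hball.trans hp) (t := t) (by field_simp)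
        have h6 : K n ⊆ hom x0 (1 + t) '' quad p := (hn.trans h4).trans h5
        rw [hom, aff_quad] at h6
        have h7 := hQ n _ h6
        rw [← aff_quad] at h7
        have h8 := volume_hom_image x0 (1 + t) (quad p)
        rw [hom] at h8
        rw [h8, hWQ, ← ENNReal.ofReal_mul (by positivity)] at h7
        have h9 := (ENNReal.ofReal_le_ofReal_iff (by positivity)).1 h7
        have h10 : c n * (2 * c n) ≤ c n * m n :=
          mul_le_mul_of_nonneg_left (h1 n) (by linarith [hc1 n])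
        nlinarith
      exact le_of_tendsto ((hcU.pow 2).const_mul 2) h3
    have hlim : Tendsto (fun t : ℝ => (1 + t) ^ 2 * W) (𝓝[>] 0)
        (𝓝 ((1 + 0) ^ 2 * W)) := by
      have hcont : Continuous (fun t : ℝ => (1 + t) ^ 2 * W) := by fun_prop
      exact (hcont.tendsto 0).mono_left nhdsWithin_le_nhds
    have h3 : 2 * √2 ^ 2 ≤ (1 + 0) ^ 2 * W := by
      refine ge_of_tendsto hlim ?_
      filter_upwards [self_mem_nhdsWithin] with t ht
      exact step t ht
    have hsq : √2 ^ 2 = 2 := Real.sq_sqrt (by norm_num)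
    rw [hWQ]
    apply ENNReal.ofReal_le_ofReal
    rw [hsq] at h3
    linarith
  exact (Lim.mk Lconv Lcomp Lbox (by rw [hVL]; exact ENNReal.ofReal_le_ofReal hup) hall).false

theorem interior_nonempty_of_pos {K : Set (ℝ × ℝ)} (hK : Convex ℝ K) (hpos : volume K ≠ 0) :
    (interior K).Nonempty := by
  by_contra h
  rw [Set.not_nonempty_iff_eq_empty] at h
  have h3 : K ⊆ frontier K := by
    intro x hx
    exact ⟨subset_closure hx, by rw [h]; simp⟩
  have h4 := measure_mono (μ := (volume : Measure (ℝ × ℝ))) h3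
  rw [hK.addHaar_frontier volume] at h4
  exact hpos (le_antisymm h4 zero_le)

theorem main_compact : ∃ c : ℝ, c < √2 ∧ ∀ K : Set (ℝ × ℝ), Convex ℝ K → IsCompact K →
    volume K = 1 → ∃ p : Fin 4 → ℝ × ℝ, K ⊆ quad p ∧ volume (quad p) ≤ ENNReal.ofReal c := by
  by_contra hcon
  push Not at hcon
  have hs : (4 : ℝ) / 3 < √2 := by
    apply Real.lt_sqrt_of_sq_lt; norm_num
  obtain ⟨c, hc⟩ : ∃ c : ℕ → ℝ, c = fun n : ℕ => √2 - 1 / ((n : ℝ) + 3) := ⟨_, rfl⟩
  have hc1 : ∀ n, 1 < c n := by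
    intro n
    rw [hc]
    have : 1 / ((n : ℝ) + 3) ≤ 1 / 3 := by
      apply one_div_le_one_div_of_le (by norm_num)
      have : (0 : ℝ) ≤ n := Nat.cast_nonneg n
      linarith
    simp only
    linarith
  have hc2 : ∀ n, c n < √2 := by
    intro n
    rw [hc]
    have : 0 < 1 / ((n : ℝ) + 3) := by positivity
    simp only
    linarith
  have hct : Tendsto c atTop (𝓝 √2) := by
    have h1 : Tendsto (fun n : ℕ => 1 / ((n : ℝ) + 3)) atTop (𝓝 0) := by
      have h2 : Tendsto (fun n : ℕ => ((n : ℝ) + 3)) atTop atTop :=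
        tendsto_atTop_add_const_right _ _ tendsto_natCast_atTop_atTop
      have h3 := h2.inv_tendsto_atTop
      refine h3.congr (fun n => ?_)
      simp
    have h3 : Tendsto (fun n : ℕ => √2 - 1 / ((n : ℝ) + 3)) atTop (𝓝 (√2 - 0)) :=
      tendsto_const_nhds.sub h1
    rw [hc]
    simpa using h3
  choose K hKcv hKc hKv hKq using fun n => hcon (c n) (hc2 n)
  have hallQ : ∀ n, AllQ (K n) (c n) := fun n p hp => (hKq n p hp).le
  have hvlt : ∀ n, volume (K n) < ENNReal.ofReal (c n) := by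
    intro n
    rw [hKv n, show (1 : ℝ≥0∞) = ENNReal.ofReal 1 by simp]
    exact (ENNReal.ofReal_lt_ofReal_iff (by linarith [hc1 n])).2 (hc1 n)
  have hint : ∀ n, (interior (K n)).Nonempty := fun n =>
    interior_nonempty_of_pos (hKcv n) (by rw [hKv n]; simp)
  choose O u w hD hbox hq using fun n => normal_form (hKcv n) (hKc n) (hint n) (hallQ n) (hvlt n)
  have hvol : ∀ n, volume (aff (O n) (u n) (w n) ⁻¹' K n)
      = ENNReal.ofReal (1 / cr (u n) (w n)) := by
    intro n
    have h := volume_preimage_aff (O := O n) (hD n).ne' (K n)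
    rw [hKv n, abs_of_pos (hD n)] at h
    rw [one_div, ENNReal.ofReal_inv_of_pos (hD n)]
    rw [eq_comm, mul_comm] at h
    exact ENNReal.eq_inv_of_mul_eq_one_left h
  have hQ : ∀ n, AllQ (aff (O n) (u n) (w n) ⁻¹' K n) (c n * (1 / cr (u n) (w n))) := by
    intro n
    have := (hallQ n).preimage (O := O n) (hD n).ne'
    rw [abs_of_pos (hD n)] at this
    rwa [mul_one_div]
  have hm0 : ∀ n, 0 < 1 / cr (u n) (w n) := fun n => one_div_pos.2 (hD n)
  refine no_seq (K := fun n => aff (O n) (u n) (w n) ⁻¹' K n)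
    (fun n => convex_preimage_aff (hKcv n) _ _ _)
    (fun n => (isCompact_preimage_aff (hKc n) (hD n).ne').isClosed) hbox
    (m := fun n => 1 / cr (u n) (w n)) hvol hct hc1 ?_ ?_ hQ
  · intro n
    obtain ⟨p, hp1, hp2⟩ := hq n _ (hm0 n).le (hvol n)
    have h1 := (hQ n p hp1).trans hp2
    have h2 := (ENNReal.ofReal_le_ofReal_iff (by positivity)).1 h1
    have h3 := hm0 n
    obtain ⟨M, hM⟩ : ∃ M, M = 1 / cr (u n) (w n) := ⟨_, rfl⟩
    rw [← hM] at h2 h3 ⊢
    by_contra hlt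
    push Not at hlt
    nlinarith
  · intro n
    have hc0 : 0 < c n := by linarith [hc1 n]
    have := allQ_key (mul_pos hc0 (hm0 n)) (hQ n)
      (p1 := (-1, -1)) (p2 := (1, -1)) (p3 := (1, 1)) (p4 := (-1, 1))
      (by simp only [tri, cr, Prod.fst_sub, Prod.snd_sub]; norm_num)
      (by simp only [tri, cr, Prod.fst_sub, Prod.snd_sub]; norm_num)
      (by simp only [tri, cr, Prod.fst_sub, Prod.snd_sub]; norm_num)
      (by simp only [tri, cr, Prod.fst_sub, Prod.snd_sub]; norm_num)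
      (by
        intro x hx
        obtain ⟨b1, b2⟩ := hbox n x hx
        rw [abs_le] at b1 b2
        simp only [tri, cr, Prod.fst_sub, Prod.snd_sub]
        refine ⟨?_, ?_, ?_, ?_⟩ <;> linarith)
    simp only [cr, Prod.fst_sub, Prod.snd_sub] at this ⊢
    norm_num at this ⊢
    linarith

/-- a convex set of finite positive area is bounded -/
theorem bounded_of_volume {K : Set (ℝ × ℝ)} (hK : Convex ℝ K) (hv : volume K = 1) :
    Bornology.IsBounded K := by
  obtain ⟨x0, hx0⟩ := interior_nonempty_of_pos hK (by rw [hv]; simp)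
  obtain ⟨ρ', hρ', hball'⟩ := Metric.isOpen_iff.1 isOpen_interior x0 hx0
  obtain ⟨ρ, hρdef⟩ : ∃ ρ, ρ = ρ' / 2 := ⟨_, rfl⟩
  have hρ : 0 < ρ := by rw [hρdef]; positivity
  have hball : Metric.closedBall x0 ρ ⊆ K :=
    (Metric.closedBall_subset_ball (by rw [hρdef]; linarith)).trans
      (hball'.trans interior_subset)
  rw [Metric.isBounded_iff_subset_closedBall x0]
  refine ⟨1 / ρ, ?_⟩
  intro q hq
  rw [Metric.mem_closedBall, dist_eq_norm]
  obtain ⟨d, hd⟩ : ∃ d, d = q - x0 := ⟨_, rfl⟩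
  have hq' : q = x0 + d := by rw [hd]; abel
  rw [← hd]
  rcases eq_or_ne d 0 with h0 | h0
  · rw [h0, norm_zero]; positivity
  have hn : 0 < ‖d‖ := norm_pos_iff.2 h0
  obtain ⟨v, hvdef⟩ : ∃ v : ℝ × ℝ, v = (ρ / ‖d‖) • (-d.2, d.1) := ⟨_, rfl⟩
  have hvn : ‖v‖ = ρ := by
    rw [hvdef, norm_smul, Real.norm_of_nonneg (by positivity)]
    have : ‖((-d.2, d.1) : ℝ × ℝ)‖ = ‖d‖ := by
      rw [Prod.norm_def, Prod.norm_def]; simp [max_comm]
    rw [this]; field_simp
  have hp : x0 + v ∈ K := hball (by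
    rw [Metric.mem_closedBall, dist_eq_norm, add_sub_cancel_left, hvn])
  have hm : x0 - v ∈ K := hball (by
    rw [Metric.mem_closedBall, dist_eq_norm, sub_sub_cancel_left, norm_neg, hvn])
  have harea := measure_mono (μ := (volume : Measure (ℝ × ℝ))) (oTri_subset hK hm hp hq)
  rw [volume_oTri, hv, show (1 : ℝ≥0∞) = ENNReal.ofReal 1 by simp,
    ENNReal.ofReal_le_ofReal_iff (by norm_num)] at harea
  have hnorm : ‖d‖ ^ 2 ≤ d.1 ^ 2 + d.2 ^ 2 := by
    rw [Prod.norm_def]
    rcases max_cases ‖d.1‖ ‖d.2‖ with ⟨h, _⟩ | ⟨h, _⟩ <;>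
      rw [h, Real.norm_eq_abs, sq_abs] <;> nlinarith [sq_nonneg d.1, sq_nonneg d.2]
  have htri : tri (x0 - v) (x0 + v) q = -(2 * (ρ / ‖d‖) * (d.1 ^ 2 + d.2 ^ 2)) := by
    rw [hq', hvdef]
    simp only [tri, cr, Prod.fst_sub, Prod.snd_sub, Prod.fst_add, Prod.snd_add, Prod.smul_fst,
      Prod.smul_snd, smul_eq_mul]
    ring
  rw [htri, abs_neg, abs_of_nonneg (by positivity)] at harea
  have h1 : ρ * ‖d‖ ≤ 1 := by
    have h2 : 2 * (ρ / ‖d‖) * ‖d‖ ^ 2 / 2 ≤ 1 := by
      refine le_trans ?_ harea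
      gcongr
    have h3 : 2 * (ρ / ‖d‖) * ‖d‖ ^ 2 / 2 = ρ * ‖d‖ := by field_simp
    linarith
  rw [le_div_iff₀ hρ]; linarith

theorem main_prod : ∃ c : ℝ, c < √2 ∧ ∀ K : Set (ℝ × ℝ), Convex ℝ K →
    volume K = 1 → ∃ p : Fin 4 → ℝ × ℝ, K ⊆ quad p ∧ volume (quad p) ≤ ENNReal.ofReal c := by
  obtain ⟨c, hc, h⟩ := main_compact
  refine ⟨c, hc, ?_⟩
  intro K hK hv
  have hb := bounded_of_volume hK hv
  have hcomp : IsCompact (closure K) := hb.isCompact_closure
  have hvc : volume (closure K) = 1 := by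
    apply le_antisymm
    · have hsub : closure K ⊆ K ∪ frontier K := by
        intro x hx
        by_cases hxK : x ∈ K
        · exact Or.inl hxK
        · exact Or.inr ⟨hx, fun h' => hxK (interior_subset h')⟩
      calc volume (closure K) ≤ volume K + volume (frontier K) :=
            (measure_mono hsub).trans (measure_union_le _ _)
        _ = 1 := by rw [hK.addHaar_frontier volume, add_zero, hv]
    · rw [← hv]; exact measure_mono subset_closure
  obtain ⟨p, hp1, hp2⟩ := h (closure K) hK.closure hcomp hvc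
  exact ⟨p, subset_closure.trans hp1, hp2⟩

end Pool.Agent.NH81.Quad
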