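import Pool.Agent.NH81.Quad.Basic

/-!
Normal form of a plane convex body: maximal `cr (q3 - q1) (q4 - q2)`.
-/

open MeasureTheory Set
open scoped ENNReal

namespace Pool.Agent.NH81.Quad

lemma posR {a b : ℝ} (h : 0 < a * b) (ha : 0 ≤ a) : 0 < b := by
  by_contra hb
  have := mul_nonneg ha (neg_nonneg.2 (not_lt.1 hb))
  nlinarith

lemma sum_volume_le {n : ℕ} {K : Set (ℝ × ℝ)} (f : Fin n → Set (ℝ × ℝ))
    (hm : ∀ i, MeasurableSet (f i)) (hd : ∀ i j, i ≠ j → Disjoint (f i) (f j))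
    (hs : ∀ i, f i ⊆ K) : ∑ i, volume (f i) ≤ volume K := by
  have h := measure_iUnion (μ := (volume : Measure (ℝ × ℝ))) (f := f) (fun i j hij => hd i j hij) hm
  rw [tsum_fintype] at h
  rw [← h]
  exact measure_mono (iUnion_subset hs)

lemma sector {K : Set (ℝ × ℝ)} (hK : Convex ℝ K) (h0 : (0 : ℝ × ℝ) ∈ K) {P Z : ℝ × ℝ}
    (hP : P ∈ K) (hZ : Z ∈ K) (h : 0 ≤ cr P Z) :
    ENNReal.ofReal (cr P Z / 2) ≤ volume (K ∩ {x | 0 < cr P x ∧ 0 < cr x Z}) := by
  rcases h.eq_or_lt with h | h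
  · rw [← h]; simp
  · have h1 : volume (oTri 0 P Z) = ENNReal.ofReal (cr P Z / 2) := by
      rw [volume_oTri]
      simp only [tri, sub_zero]
      rw [abs_of_pos h]
    rw [← h1]
    apply measure_mono
    intro x hx
    refine ⟨oTri_subset hK h0 hP hZ hx, ?_⟩
    obtain ⟨a, b, ha, hb, _, rfl⟩ := mem_oTri.1 hx
    constructor
    · have : cr P ((1 - a - b) • (0 : ℝ × ℝ) + a • P + b • Z) = b * cr P Z := by
        simp [cr]; ring
      rw [this]; positivity
    · have : cr ((1 - a - b) • (0 : ℝ × ℝ) + a • P + b • Z) Z = a * cr P Z := by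
        simp [cr]; ring
      rw [this]; positivity

lemma continuous_cr_right (P : ℝ × ℝ) : Continuous (fun x => cr P x) := by
  unfold cr; fun_prop

lemma continuous_cr_left (P : ℝ × ℝ) : Continuous (fun x => cr x P) := by
  unfold cr; fun_prop

lemma cone {K : Set (ℝ × ℝ)} (hK : Convex ℝ K) (hKm : MeasurableSet K)
    (h0 : (0 : ℝ × ℝ) ∈ K) {P Z N : ℝ × ℝ}
    (hP : P ∈ K) (hZ : Z ∈ K) (hN : N ∈ K) (hPN : 0 < cr P N) (hPZ : 0 ≤ cr P Z)
    (hZN : 0 ≤ cr Z N) :
    ENNReal.ofReal ((cr P Z + cr Z N) / 2) ≤ volume (K ∩ {x | 0 < cr P x ∧ 0 < cr x N}) := by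
  have hA := sector hK h0 hP hZ hPZ
  have hB := sector hK h0 hZ hN hZN
  have hmeas : ∀ U V : ℝ × ℝ, MeasurableSet {x : ℝ × ℝ | 0 < cr U x ∧ 0 < cr x V} := by
    intro U V
    exact ((isOpen_lt continuous_const (continuous_cr_right U)).inter
      (isOpen_lt continuous_const (continuous_cr_left V))).measurableSet
  have hd : Disjoint (K ∩ {x | 0 < cr P x ∧ 0 < cr x Z}) (K ∩ {x | 0 < cr Z x ∧ 0 < cr x N}) := by
    rw [Set.disjoint_left]
    rintro x ⟨_, _, h1⟩ ⟨_, h2, _⟩
    have : cr x Z = - cr Z x := by simp only [cr]; ring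
    linarith
  have hu := measure_union (μ := (volume : Measure (ℝ × ℝ))) hd (hKm.inter (hmeas Z N))
  calc ENNReal.ofReal ((cr P Z + cr Z N) / 2)
      = ENNReal.ofReal (cr P Z / 2) + ENNReal.ofReal (cr Z N / 2) := by
        rw [← ENNReal.ofReal_add (by positivity) (by positivity)]; congr 1; ring
    _ ≤ _ := add_le_add hA hB
    _ = _ := hu.symm
    _ ≤ _ := by
        apply measure_mono
        rintro x (⟨hxK, h1, h2⟩ | ⟨hxK, h1, h2⟩)
        · refine ⟨hxK, h1, ?_⟩
          have pl : cr P N * cr x Z + cr P x * cr Z N = cr P Z * cr x N := by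
            simp only [cr]; ring
          have h3 : 0 < cr P Z * cr x N := by
            rw [← pl]; nlinarith [mul_pos hPN h2, mul_nonneg h1.le hZN]
          exact posR h3 hPZ
        · refine ⟨hxK, ?_, h2⟩
          have pl : cr P N * cr Z x + cr x N * cr P Z = cr Z N * cr P x := by
            simp only [cr]; ring
          have h3 : 0 < cr Z N * cr P x := by
            rw [← pl]; nlinarith [mul_pos hPN h1, mul_nonneg h2.le hPZ]
          exact posR h3 hZN

/-- degenerate case: a maximal triple gives a triangle -/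
lemma degen {K : Set (ℝ × ℝ)} (hK : Convex ℝ K) {T : ℝ} (hT : 0 < T)
    (hmax : ∀ q1 ∈ K, ∀ q2 ∈ K, ∀ q3 ∈ K, ∀ q4 ∈ K, cr (q3 - q1) (q4 - q2) ≤ T)
    {p q r : ℝ × ℝ} (hp : p ∈ K) (hq : q ∈ K) (hr : r ∈ K) (h : tri p q r = T) :
    K ⊆ quad ![p, q, r, r] ∧ volume (quad ![p, q, r, r]) ≤ volume K := by
  have hr3 : quad ![p, q, r, r] = convexHull ℝ {p, q, r} := by
    rw [quad, quad_vec_range]; congr 1; ext x; simp
  rw [hr3]
  constructor
  · intro x hx
    apply mem_hull3 (by rw [h]; exact hT)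
    · have := hmax p hp x hx q hq r hr
      simp only [tri, cr, Prod.fst_sub, Prod.snd_sub] at *
      linarith
    · have := hmax p hp q hq x hx r hr
      simp only [tri, cr, Prod.fst_sub, Prod.snd_sub] at *
      linarith
    · have := hmax p hp q hq r hr x hx
      simp only [tri, cr, Prod.fst_sub, Prod.snd_sub] at *
      linarith
  · refine (volume_hull3_le p q r).trans ?_
    rw [← volume_oTri]
    exact measure_mono (oTri_subset hK hp hq hr)

set_option maxHeartbeats 8000000 in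
/-- the circumscribed quadrilateral of a body in normal form -/
lemma core {K : Set (ℝ × ℝ)} (hK : Convex ℝ K) (hKc : IsCompact K) {a b c d : ℝ}
    (ha : 0 < a) (hb : 0 < b) (hc : 0 < c) (hd : 0 < d) (hac : a + c = 2) (hbd : b + d = 2)
    (hE : (a, 0) ∈ K) (hN : (0, b) ∈ K) (hW : (-c, 0) ∈ K) (hS : (0, -d) ∈ K)
    (hbox : ∀ x ∈ K, -c ≤ x.1 ∧ x.1 ≤ a ∧ -d ≤ x.2 ∧ x.2 ≤ b)
    {m : ℝ} (hm : 0 ≤ m) (hvol : volume K = ENNReal.ofReal m) :
    ∃ p : Fin 4 → ℝ × ℝ, K ⊆ quad p ∧ volume (quad p) ≤ ENNReal.ofReal (m ^ 2 / 2) := by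
  have hne : K.Nonempty := ⟨_, hE⟩
  have hmax : ∀ α β : ℝ, ∃ Z ∈ K, ∀ x ∈ K, α * x.1 + β * x.2 ≤ α * Z.1 + β * Z.2 := by
    intro α β
    obtain ⟨Z, hZ, hZm⟩ := hKc.exists_isMaxOn hne
      (f := fun x : ℝ × ℝ => α * x.1 + β * x.2) (by fun_prop)
    exact ⟨Z, hZ, fun x hx => hZm hx⟩
  have h0 : (0 : ℝ × ℝ) ∈ K := by
    have := hK hE hW (a := c / 2) (b := a / 2) (by positivity) (by positivity) (by linarith)
    convert this using 1
    ext <;> simp; ring
  have hKm : MeasurableSet K := hKc.isClosed.measurableSet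
  obtain ⟨Z1, hZ1, hM1⟩ := hmax b a
  obtain ⟨Z2, hZ2, hM2⟩ := hmax (-b) c
  obtain ⟨Z3, hZ3, hM3⟩ := hmax (-d) (-c)
  obtain ⟨Z4, hZ4, hM4⟩ := hmax d (-a)
  obtain ⟨s1, hs1⟩ : ∃ s1, s1 = b * Z1.1 + a * Z1.2 - a * b := ⟨_, rfl⟩
  obtain ⟨s2, hs2⟩ : ∃ s2, s2 = -b * Z2.1 + c * Z2.2 - b * c := ⟨_, rfl⟩
  obtain ⟨s3, hs3⟩ : ∃ s3, s3 = -d * Z3.1 + -c * Z3.2 - c * d := ⟨_, rfl⟩
  obtain ⟨s4, hs4⟩ : ∃ s4, s4 = d * Z4.1 + -a * Z4.2 - a * d := ⟨_, rfl⟩
  have n1 : 0 ≤ s1 := by have := hM1 _ hE; simp only at this; nlinarith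
  have n2 : 0 ≤ s2 := by have := hM2 _ hN; simp only at this; nlinarith
  have n3 : 0 ≤ s3 := by have := hM3 _ hW; simp only at this; nlinarith
  have n4 : 0 ≤ s4 := by have := hM4 _ hE; simp only at this; nlinarith
  obtain ⟨z11, z12, z13, z14⟩ := hbox _ hZ1
  obtain ⟨z21, z22, z23, z24⟩ := hbox _ hZ2
  obtain ⟨z31, z32, z33, z34⟩ := hbox _ hZ3
  obtain ⟨z41, z42, z43, z44⟩ := hbox _ hZ4
  have u1 : s1 ≤ a * b := by
    nlinarith [mul_le_mul_of_nonneg_left z12 hb.le, mul_le_mul_of_nonneg_left z14 ha.le]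
  have u2 : s2 ≤ b * c := by
    nlinarith [mul_le_mul_of_nonneg_left z21 hb.le, mul_le_mul_of_nonneg_left z24 hc.le]
  have u3 : s3 ≤ c * d := by
    nlinarith [mul_le_mul_of_nonneg_left z31 hd.le, mul_le_mul_of_nonneg_left z33 hc.le]
  have u4 : s4 ≤ a * d := by
    nlinarith [mul_le_mul_of_nonneg_left z42 hd.le, mul_le_mul_of_nonneg_left z43 ha.le]
  -- signs of the extreme points
  have p1 : 0 ≤ b * Z1.1 := by nlinarith [mul_le_mul_of_nonneg_left z14 ha.le]
  have p1' : 0 ≤ a * Z1.2 := by nlinarith [mul_le_mul_of_nonneg_left z12 hb.le]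
  have p2 : 0 ≤ -b * Z2.1 := by nlinarith [mul_le_mul_of_nonneg_left z24 hc.le]
  have p2' : 0 ≤ c * Z2.2 := by nlinarith [mul_le_mul_of_nonneg_left z21 hb.le]
  have p3 : 0 ≤ -d * Z3.1 := by nlinarith [mul_le_mul_of_nonneg_left z33 hc.le]
  have p3' : 0 ≤ -c * Z3.2 := by nlinarith [mul_le_mul_of_nonneg_left z31 hd.le]
  have p4 : 0 ≤ d * Z4.1 := by nlinarith [mul_le_mul_of_nonneg_left z43 ha.le]
  have p4' : 0 ≤ -a * Z4.2 := by nlinarith [mul_le_mul_of_nonneg_left z42 hd.le]
  -- the area of K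
  have harea : 2 + (s1 + s2 + s3 + s4) / 2 ≤ m := by
    have c1 := cone hK hKm h0 hE hZ1 hN (by simp only [cr]; nlinarith [mul_pos ha hb])
      (by simp only [cr]; linarith) (by simp only [cr]; linarith)
    have c2 := cone hK hKm h0 hN hZ2 hW (by simp only [cr]; nlinarith [mul_pos hb hc])
      (by simp only [cr]; linarith) (by simp only [cr]; linarith)
    have c3 := cone hK hKm h0 hW hZ3 hS (by simp only [cr]; nlinarith [mul_pos hc hd])
      (by simp only [cr]; linarith) (by simp only [cr]; linarith)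
    have c4 := cone hK hKm h0 hS hZ4 hE (by simp only [cr]; nlinarith [mul_pos hd ha])
      (by simp only [cr]; linarith) (by simp only [cr]; linarith)
    have hmeas : ∀ U V : ℝ × ℝ, MeasurableSet {x : ℝ × ℝ | 0 < cr U x ∧ 0 < cr x V} := by
      intro U V
      exact ((isOpen_lt continuous_const (continuous_cr_right U)).inter
        (isOpen_lt continuous_const (continuous_cr_left V))).measurableSet
    have hsum := sum_volume_le (K := K)
      ![K ∩ {x | 0 < cr (a, 0) x ∧ 0 < cr x (0, b)}, K ∩ {x | 0 < cr (0, b) x ∧ 0 < cr x (-c, 0)},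
        K ∩ {x | 0 < cr (-c, 0) x ∧ 0 < cr x (0, -d)},
        K ∩ {x | 0 < cr (0, -d) x ∧ 0 < cr x (a, 0)}]
      (by intro i; fin_cases i <;> exact hKm.inter (hmeas _ _))
      (by
        have key1 : ∀ x : ℝ × ℝ, 0 < cr (a, 0) x ∧ 0 < cr x (0, b) → 0 < x.1 ∧ 0 < x.2 := by
          intro x ⟨h1, h2⟩
          simp only [cr, zero_mul, sub_zero, mul_zero] at h1 h2
          exact ⟨posR (by linarith : 0 < b * x.1) hb.le,
            posR h1 ha.le⟩
        have key2 : ∀ x : ℝ × ℝ, 0 < cr (0, b) x ∧ 0 < cr x (-c, 0) → x.1 < 0 ∧ 0 < x.2 := by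
          intro x ⟨h1, h2⟩
          simp only [cr, zero_mul, zero_sub, mul_zero] at h1 h2
          have e1 : 0 < -x.1 := posR (by linarith : 0 < b * (-x.1)) hb.le
          have e2 : 0 < x.2 := posR (by linarith : 0 < c * x.2) hc.le
          exact ⟨by linarith, e2⟩
        have key3 : ∀ x : ℝ × ℝ, 0 < cr (-c, 0) x ∧ 0 < cr x (0, -d) → x.1 < 0 ∧ x.2 < 0 := by
          intro x ⟨h1, h2⟩
          simp only [cr, zero_mul, sub_zero, mul_zero] at h1 h2
          have e1 : 0 < -x.1 := posR (by linarith : 0 < d * (-x.1)) hd.le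
          have e2 : 0 < -x.2 := posR (by linarith : 0 < c * (-x.2)) hc.le
          exact ⟨by linarith, by linarith⟩
        have key4 : ∀ x : ℝ × ℝ, 0 < cr (0, -d) x ∧ 0 < cr x (a, 0) → 0 < x.1 ∧ x.2 < 0 := by
          intro x ⟨h1, h2⟩
          simp only [cr, zero_mul, zero_sub, mul_zero] at h1 h2
          have e1 : 0 < x.1 := posR (by linarith : 0 < d * x.1) hd.le
          have e2 : 0 < -x.2 := posR (by linarith : 0 < a * (-x.2)) ha.le
          exact ⟨e1, by linarith⟩
        intro i j hij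
        rw [Set.disjoint_left]
        fin_cases i <;> fin_cases j <;> first
          | exact absurd rfl hij
          | (rintro x ⟨_, h1⟩ ⟨_, h2⟩
             first
             | (have := key1 x h1; have := key2 x h2; linarith [this.1, this.2, (key1 x h1).1, (key1 x h1).2])
             | (have := key1 x h1; have := key3 x h2; linarith [this.1, this.2, (key1 x h1).1, (key1 x h1).2])
             | (have := key1 x h1; have := key4 x h2; linarith [this.1, this.2, (key1 x h1).1, (key1 x h1).2])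
             | (have := key2 x h1; have := key1 x h2; linarith [this.1, this.2, (key2 x h1).1, (key2 x h1).2])
             | (have := key2 x h1; have := key3 x h2; linarith [this.1, this.2, (key2 x h1).1, (key2 x h1).2])
             | (have := key2 x h1; have := key4 x h2; linarith [this.1, this.2, (key2 x h1).1, (key2 x h1).2])
             | (have := key3 x h1; have := key1 x h2; linarith [this.1, this.2, (key3 x h1).1, (key3 x h1).2])
             | (have := key3 x h1; have := key2 x h2; linarith [this.1, this.2, (key3 x h1).1, (key3 x h1).2])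
             | (have := key3 x h1; have := key4 x h2; linarith [this.1, this.2, (key3 x h1).1, (key3 x h1).2])
             | (have := key4 x h1; have := key1 x h2; linarith [this.1, this.2, (key4 x h1).1, (key4 x h1).2])
             | (have := key4 x h1; have := key2 x h2; linarith [this.1, this.2, (key4 x h1).1, (key4 x h1).2])
             | (have := key4 x h1; have := key3 x h2; linarith [this.1, this.2, (key4 x h1).1, (key4 x h1).2])))
      (by intro i; fin_cases i <;> exact inter_subset_left)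
    simp only [Fin.sum_univ_four, Matrix.cons_val_zero, Matrix.cons_val_one,
      Matrix.cons_val_two, Matrix.head_cons, Matrix.tail_cons, Matrix.cons_val_three,
      Matrix.cons_val] at hsum
    have hfin := (add_le_add (add_le_add (add_le_add c1 c2) c3) c4).trans hsum
    rw [hvol, ← ENNReal.ofReal_add, ← ENNReal.ofReal_add, ← ENNReal.ofReal_add,
      ENNReal.ofReal_le_ofReal_iff hm] at hfin
    · simp only [cr] at hfin
      nlinarith
    all_goals simp only [cr]; nlinarith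
  -- the circumscribed quadrilateral
  obtain ⟨e1, he1⟩ : ∃ e1, e1 = a + (s1 + s4) / 2 := ⟨_, rfl⟩
  obtain ⟨e2, he2⟩ : ∃ e2, e2 = (d * s1 - b * s4) / (2 * a) := ⟨_, rfl⟩
  obtain ⟨m1, hm1⟩ : ∃ m1, m1 = (c * s1 - a * s2) / (2 * b) := ⟨_, rfl⟩
  obtain ⟨m2, hm2⟩ : ∃ m2, m2 = b + (s1 + s2) / 2 := ⟨_, rfl⟩
  obtain ⟨w1, hw1⟩ : ∃ w1, w1 = -c - (s2 + s3) / 2 := ⟨_, rfl⟩
  obtain ⟨w2, hw2⟩ : ∃ w2, w2 = (d * s2 - b * s3) / (2 * c) := ⟨_, rfl⟩
  obtain ⟨t1, ht1⟩ : ∃ t1, t1 = (c * s4 - a * s3) / (2 * d) := ⟨_, rfl⟩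
  obtain ⟨t2, ht2⟩ : ∃ t2, t2 = -d - (s3 + s4) / 2 := ⟨_, rfl⟩
  obtain ⟨k1, hk1⟩ : ∃ k1, k1 = 1 + ((a - d) * s1 + a * s2 + b * s4) / (2 * a * b) := ⟨_, rfl⟩
  obtain ⟨k2, hk2⟩ : ∃ k2, k2 = 1 + ((b - a) * s2 + b * s3 + c * s1) / (2 * b * c) := ⟨_, rfl⟩
  obtain ⟨k3, hk3⟩ : ∃ k3, k3 = 1 + ((d - a) * s3 + c * s4 + d * s2) / (2 * c * d) := ⟨_, rfl⟩
  obtain ⟨k4, hk4⟩ : ∃ k4, k4 = 1 + ((d - c) * s4 + d * s1 + a * s3) / (2 * a * d) := ⟨_, rfl⟩
  have hc' : c = 2 - a := by linarith
  have hd' : d = 2 - b := by linarith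
  have P1 : 0 < k1 := by
    rw [hk1, add_div, add_div]
    have : -(d / 2) ≤ (a - d) * s1 / (2 * a * b) := by
      rw [← sub_nonneg]
      have : (a - d) * s1 / (2 * a * b) - -(d / 2)
          = (a * s1 + d * (a * b - s1)) / (2 * a * b) := by field_simp; ring
      rw [this]
      have := mul_nonneg hd.le (sub_nonneg.2 u1)
      positivity
    have h2 : 0 ≤ a * s2 / (2 * a * b) := by positivity
    have h3 : 0 ≤ b * s4 / (2 * a * b) := by positivity
    linarith
  have P2 : 0 < k2 := by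
    rw [hk2, add_div, add_div]
    have : -(a / 2) ≤ (b - a) * s2 / (2 * b * c) := by
      rw [← sub_nonneg]
      have : (b - a) * s2 / (2 * b * c) - -(a / 2)
          = (b * s2 + a * (b * c - s2)) / (2 * b * c) := by field_simp; ring
      rw [this]
      have := mul_nonneg ha.le (sub_nonneg.2 u2)
      positivity
    have h2 : 0 ≤ b * s3 / (2 * b * c) := by positivity
    have h3 : 0 ≤ c * s1 / (2 * b * c) := by positivity
    linarith
  have P3 : 0 < k3 := by
    rw [hk3, add_div, add_div]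
    have : -(a / 2) ≤ (d - a) * s3 / (2 * c * d) := by
      rw [← sub_nonneg]
      have : (d - a) * s3 / (2 * c * d) - -(a / 2)
          = (d * s3 + a * (c * d - s3)) / (2 * c * d) := by field_simp; ring
      rw [this]
      have := mul_nonneg ha.le (sub_nonneg.2 u3)
      positivity
    have h2 : 0 ≤ c * s4 / (2 * c * d) := by positivity
    have h3 : 0 ≤ d * s2 / (2 * c * d) := by positivity
    linarith
  have P4 : 0 < k4 := by
    rw [hk4, add_div, add_div]
    have : -(c / 2) ≤ (d - c) * s4 / (2 * a * d) := by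
      rw [← sub_nonneg]
      have : (d - c) * s4 / (2 * a * d) - -(c / 2)
          = (d * s4 + c * (a * d - s4)) / (2 * a * d) := by field_simp; ring
      rw [this]
      have := mul_nonneg hc.le (sub_nonneg.2 u4)
      positivity
    have h2 : 0 ≤ d * s1 / (2 * a * d) := by positivity
    have h3 : 0 ≤ a * s3 / (2 * a * d) := by positivity
    linarith
  have E1 : m1 = e1 - a * k1 := by
    rw [hm1, he1, hk1, hd', hc']; field_simp; ring
  have E2 : m2 = e2 + b * k1 := by
    rw [hm2, he2, hk1, hd']; field_simp; ring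
  have E3 : w1 = m1 - c * k2 := by
    rw [hw1, hm1, hk2]; field_simp; ring
  have E4 : w2 = m2 - b * k2 := by
    rw [hw2, hm2, hk2, hd']; field_simp; rw [hc']; ring
  have E5 : t1 = w1 + c * k3 := by
    rw [ht1, hw1, hk3]; field_simp; ring
  have E6 : t2 = w2 - d * k3 := by
    rw [ht2, hw2, hk3]; field_simp; rw [hc', hd']; ring
  have E7 : e1 = t1 + a * k4 := by
    rw [he1, ht1, hk4]; field_simp; ring
  have E8 : e2 = t2 + d * k4 := by
    rw [he2, ht2, hk4]; field_simp; rw [hc', hd']; ring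
  have L1 : b * e1 + a * e2 = a * b + s1 := by
    rw [he1, he2, hd']; field_simp; ring
  have L2 : -b * m1 + c * m2 = b * c + s2 := by
    rw [hm1, hm2, hc']; field_simp; ring
  have L3 : -d * w1 - c * w2 = c * d + s3 := by
    rw [hw1, hw2, hd']; field_simp; ring
  have L4 : d * t1 - a * t2 = a * d + s4 := by
    rw [ht1, ht2, hc']; field_simp; ring
  refine ⟨![(e1, e2), (m1, m2), (w1, w2), (t1, t2)], ?_⟩
  have T123 : tri (e1, e2) (m1, m2) (w1, w2) = 2 * b * (k1 * k2) := by
    simp only [tri, cr, Prod.fst_sub, Prod.snd_sub]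
    rw [E3, E4, E1, E2]
    linear_combination (b * k1 * k2) * hac
  have T134 : tri (e1, e2) (w1, w2) (t1, t2) = 2 * d * (k3 * k4) := by
    simp only [tri, cr, Prod.fst_sub, Prod.snd_sub]
    have F1 : w1 = t1 - c * k3 := by linarith
    have F2 : w2 = t2 + d * k3 := by linarith
    rw [F1, F2, E7, E8]
    linear_combination (d * k3 * k4) * hac
  have T124 : tri (e1, e2) (m1, m2) (t1, t2) = a * (b + d) * (k4 * k1) := by
    simp only [tri, cr, Prod.fst_sub, Prod.snd_sub]
    have F1 : t1 = e1 - a * k4 := by linarith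
    have F2 : t2 = e2 - d * k4 := by linarith
    rw [F1, F2, E1, E2]
    ring
  have T234 : tri (m1, m2) (w1, w2) (t1, t2) = c * (b + d) * (k2 * k3) := by
    simp only [tri, cr, Prod.fst_sub, Prod.snd_sub]
    rw [E5, E6, E3, E4]
    ring
  have hres := quad_key (p1 := (e1, e2)) (p2 := (m1, m2)) (p3 := (w1, w2)) (p4 := (t1, t2))
    (by rw [T123]; positivity) (by rw [T134]; positivity) (by rw [T124]; positivity)
    (by rw [T234]; positivity) (K := K) (by
      intro x hx
      have i1 := hM1 x hx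
      have i2 := hM2 x hx
      have i3 := hM3 x hx
      have i4 := hM4 x hx
      refine ⟨?_, ?_, ?_, ?_⟩
      · have : tri (e1, e2) (m1, m2) x = k1 * ((b * e1 + a * e2) - (b * x.1 + a * x.2)) := by
          simp only [tri, cr, Prod.fst_sub, Prod.snd_sub]; rw [E1, E2]; ring
        rw [this, L1]; apply mul_nonneg P1.le; linarith
      · have : tri (m1, m2) (w1, w2) x = k2 * ((-b * m1 + c * m2) - (-b * x.1 + c * x.2)) := by
          simp only [tri, cr, Prod.fst_sub, Prod.snd_sub]; rw [E3, E4]; ring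
        rw [this, L2]; apply mul_nonneg P2.le; linarith
      · have : tri (w1, w2) (t1, t2) x = k3 * ((-d * w1 - c * w2) - (-d * x.1 + -c * x.2)) := by
          simp only [tri, cr, Prod.fst_sub, Prod.snd_sub]; rw [E5, E6]; ring
        rw [this, L3]; apply mul_nonneg P3.le; linarith
      · have : tri (t1, t2) (e1, e2) x = k4 * ((d * t1 - a * t2) - (d * x.1 + -a * x.2)) := by
          simp only [tri, cr, Prod.fst_sub, Prod.snd_sub]; rw [E7, E8]; ring
        rw [this, L4]; apply mul_nonneg P4.le; linarith)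
  refine ⟨hres.1, hres.2.trans (ENNReal.ofReal_le_ofReal ?_)⟩
  have hcr : cr ((w1, w2) - (e1, e2)) ((t1, t2) - (m1, m2))
      = (2 + (s1 + s2 + s3 + s4) / 2) ^ 2
        - (c * d * s1 - b * c * s4 - a * d * s2 + a * b * s3) ^ 2 / (4 * a * b * c * d) := by
    simp only [cr, Prod.fst_sub, Prod.snd_sub]
    have G1 : w1 - e1 = -(2 + (s1 + s2 + s3 + s4) / 2) := by rw [hw1, he1]; linarith
    have G2 : t2 - m2 = -(2 + (s1 + s2 + s3 + s4) / 2) := by rw [ht2, hm2]; linarith
    have G3 : w2 - e2 = -(c * d * s1 - b * c * s4 - a * d * s2 + a * b * s3) / (2 * a * c) := by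
      rw [hw2, he2]; field_simp; ring
    have G4 : t1 - m1 = -(c * d * s1 - b * c * s4 - a * d * s2 + a * b * s3) / (2 * b * d) := by
      rw [ht1, hm1]; field_simp; ring
    rw [G1, G2, G3, G4]
    field_simp
    ring
  rw [hcr]
  have h1 : 0 ≤ (c * d * s1 - b * c * s4 - a * d * s2 + a * b * s3) ^ 2 / (4 * a * b * c * d) := by
    positivity
  have h2 : (2 + (s1 + s2 + s3 + s4) / 2) ^ 2 ≤ m ^ 2 := by
    apply pow_le_pow_left₀ (by positivity) harea
  linarith

end Pool.Agent.NH81.Quad
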