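import Pool.Agent.NH81.Quad.NF

/-!
Affine normalisation of a plane convex body.
-/

open MeasureTheory Set
open scoped ENNReal

namespace Pool.Agent.NH81.Quad

lemma isCompact_preimage_aff {K : Set (ℝ × ℝ)} (hK : IsCompact K) {O u w : ℝ × ℝ}
    (h : cr u w ≠ 0) : IsCompact (aff O u w ⁻¹' K) := by
  have hc : Continuous (fun x : ℝ × ℝ => ((cr (x - O) w / cr u w, cr u (x - O) / cr u w) : ℝ × ℝ)) := by
    unfold cr; fun_prop
  have : aff O u w ⁻¹' K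
      = (fun x : ℝ × ℝ => ((cr (x - O) w / cr u w, cr u (x - O) / cr u w) : ℝ × ℝ)) '' K := by
    ext z
    constructor
    · intro hz
      refine ⟨aff O u w z, hz, ?_⟩
      ext
      · simp only [aff, add_sub_cancel_left]
        rw [div_eq_iff h]
        simp only [cr, Prod.fst_add, Prod.snd_add, Prod.smul_fst, Prod.smul_snd, smul_eq_mul]
        ring
      · simp only [aff, add_sub_cancel_left]
        rw [div_eq_iff h]
        simp only [cr, Prod.fst_add, Prod.snd_add, Prod.smul_fst, Prod.smul_snd, smul_eq_mul]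
        ring
    · rintro ⟨x, hx, rfl⟩
      show aff O u w _ ∈ K
      convert hx using 1
      ext
      · simp only [aff, Prod.fst_add, Prod.smul_fst, smul_eq_mul]
        field_simp
        simp only [cr, Prod.fst_sub, Prod.snd_sub]; ring
      · simp only [aff, Prod.snd_add, Prod.smul_snd, smul_eq_mul]
        field_simp
        simp only [cr, Prod.fst_sub, Prod.snd_sub]; ring
  rw [this]
  exact hK.image hc

lemma cr_aff (O u w q1 q2 q3 q4 : ℝ × ℝ) :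
    cr (aff O u w q3 - aff O u w q1) (aff O u w q4 - aff O u w q2)
      = cr u w * cr (q3 - q1) (q4 - q2) := by
  simp only [cr, aff, Prod.fst_sub, Prod.snd_sub, Prod.fst_add, Prod.snd_add, Prod.smul_fst,
    Prod.smul_snd, smul_eq_mul]
  ring

/-- second half of the normal form: in coordinates -/
lemma normal2 {K : Set (ℝ × ℝ)} (hK : Convex ℝ K) (hKc : IsCompact K) {ξ η : ℝ}
    (hE : (1, η) ∈ K) (hN : (ξ, 1) ∈ K) (hW : (-1, η) ∈ K) (hS : (ξ, -1) ∈ K)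
    (hbox : ∀ x ∈ K, |x.1| ≤ 1 ∧ |x.2| ≤ 1)
    (hmax : ∀ q1 ∈ K, ∀ q2 ∈ K, ∀ q3 ∈ K, ∀ q4 ∈ K, cr (q3 - q1) (q4 - q2) ≤ 4)
    {c : ℝ} (hQ : AllQ K c) (hvol : volume K < ENNReal.ofReal c)
    {m : ℝ} (hm : 0 ≤ m) (hvm : volume K = ENNReal.ofReal m) :
    ∃ p : Fin 4 → ℝ × ℝ, K ⊆ quad p ∧ volume (quad p) ≤ ENNReal.ofReal (m ^ 2 / 2) := by
  have hξ := abs_le.1 (hbox _ hN).1
  have hη := abs_le.1 (hbox _ hE).2
  simp only at hξ hη
  have nodeg : ∀ p q r : ℝ × ℝ, p ∈ K → q ∈ K → r ∈ K → tri p q r ≠ 4 := by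
    intro p q r hp hq hr h
    obtain ⟨h1, h2⟩ := degen hK (by norm_num : (0 : ℝ) < 4) hmax hp hq hr h
    exact absurd (hQ _ h1) (not_le.2 (lt_of_le_of_lt h2 hvol))
  have c1 : ξ ≠ 1 := by
    rintro rfl
    apply nodeg _ _ _ hW hS hN
    simp only [tri, cr, Prod.fst_sub, Prod.snd_sub]; ring
  have c2 : ξ ≠ -1 := by
    rintro rfl
    apply nodeg _ _ _ hS hE hN
    simp only [tri, cr, Prod.fst_sub, Prod.snd_sub]; ring
  have c3 : η ≠ 1 := by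
    rintro rfl
    apply nodeg _ _ _ hS hE hW
    simp only [tri, cr, Prod.fst_sub, Prod.snd_sub]; ring
  have c4 : η ≠ -1 := by
    rintro rfl
    apply nodeg _ _ _ hW hE hN
    simp only [tri, cr, Prod.fst_sub, Prod.snd_sub]; ring
  have d1 : ξ < 1 := lt_of_le_of_ne hξ.2 c1
  have d2 : -1 < ξ := lt_of_le_of_ne hξ.1 (Ne.symm c2)
  have d3 : η < 1 := lt_of_le_of_ne hη.2 c3
  have d4 : -1 < η := lt_of_le_of_ne hη.1 (Ne.symm c4)
  have hcr : cr ((1 : ℝ), (0 : ℝ)) ((0 : ℝ), (1 : ℝ)) = 1 := by simp [cr]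
  have hcr0 : cr ((1 : ℝ), (0 : ℝ)) ((0 : ℝ), (1 : ℝ)) ≠ 0 := by rw [hcr]; norm_num
  have hv := volume_preimage_aff (O := (ξ, η)) hcr0 K
  rw [hcr, abs_one, ENNReal.ofReal_one, one_mul] at hv
  have happ : ∀ z : ℝ × ℝ, aff (ξ, η) (1, 0) (0, 1) z = (ξ + z.1, η + z.2) := by
    intro z; ext <;> simp [aff]
  obtain ⟨p, hp1, hp2⟩ := core (K := aff (ξ, η) (1, 0) (0, 1) ⁻¹' K)
    (convex_preimage_aff hK _ _ _) (isCompact_preimage_aff hKc hcr0)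
    (a := 1 - ξ) (b := 1 - η) (c := 1 + ξ) (d := 1 + η)
    (by linarith) (by linarith) (by linarith) (by linarith) (by ring) (by ring)
    (by show aff _ _ _ _ ∈ K; rw [happ]; convert hE using 2 <;> ring)
    (by show aff _ _ _ _ ∈ K; rw [happ]; convert hN using 2 <;> ring)
    (by show aff _ _ _ _ ∈ K; rw [happ]; convert hW using 2 <;> ring)
    (by show aff _ _ _ _ ∈ K; rw [happ]; convert hS using 2 <;> ring)
    (by
      intro x hx
      have hx' : aff (ξ, η) (1, 0) (0, 1) x ∈ K := hx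
      rw [happ] at hx'
      have h1 := abs_le.1 (hbox _ hx').1
      have h2 := abs_le.1 (hbox _ hx').2
      simp only at h1 h2
      exact ⟨by linarith [h1.1], by linarith [h1.2], by linarith [h2.1], by linarith [h2.2]⟩)
    hm (by rw [← hv, hvm])
  refine ⟨fun i => aff (ξ, η) (1, 0) (0, 1) (p i), ?_, ?_⟩
  · rw [← aff_quad, ← Set.image_preimage_eq K (aff_surj (O := (ξ, η)) hcr0)]
    exact Set.image_mono hp1
  · rw [← aff_quad, volume_aff_image, hcr, abs_one, ENNReal.ofReal_one, one_mul]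
    exact hp2

lemma exists_max4 {K : Set (ℝ × ℝ)} (hKc : IsCompact K) (hne : K.Nonempty) :
    ∃ W ∈ K, ∃ S ∈ K, ∃ E ∈ K, ∃ N ∈ K, ∀ q1 ∈ K, ∀ q2 ∈ K, ∀ q3 ∈ K, ∀ q4 ∈ K,
      cr (q3 - q1) (q4 - q2) ≤ cr (E - W) (N - S) := by
  obtain ⟨x0, hx0⟩ := hne
  have hc : IsCompact ((K ×ˢ K) ×ˢ (K ×ˢ K)) := (hKc.prod hKc).prod (hKc.prod hKc)
  obtain ⟨⟨⟨W, S⟩, ⟨E, N⟩⟩, hZ, hM⟩ := hc.exists_isMaxOn
    ⟨((x0, x0), (x0, x0)), ⟨⟨hx0, hx0⟩, ⟨hx0, hx0⟩⟩⟩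
    (f := fun x : ((ℝ × ℝ) × (ℝ × ℝ)) × ((ℝ × ℝ) × (ℝ × ℝ)) =>
      cr (x.2.1 - x.1.1) (x.2.2 - x.1.2)) (by unfold cr; fun_prop)
  refine ⟨W, hZ.1.1, S, hZ.1.2, E, hZ.2.1, N, hZ.2.2, ?_⟩
  intro q1 h1 q2 h2 q3 h3 q4 h4
  exact hM (show ((q1, q2), (q3, q4)) ∈ (K ×ˢ K) ×ˢ (K ×ˢ K) from ⟨⟨h1, h2⟩, ⟨h3, h4⟩⟩)

theorem normal_form {K : Set (ℝ × ℝ)} (hK : Convex ℝ K) (hKc : IsCompact K)
    (hi : (interior K).Nonempty) {c : ℝ} (hQ : AllQ K c) (hvol : volume K < ENNReal.ofReal c) :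
    ∃ O u w : ℝ × ℝ, 0 < cr u w ∧ (∀ z ∈ aff O u w ⁻¹' K, |z.1| ≤ 1 ∧ |z.2| ≤ 1) ∧
      ∀ m : ℝ, 0 ≤ m → volume (aff O u w ⁻¹' K) = ENNReal.ofReal m →
        ∃ p : Fin 4 → ℝ × ℝ, aff O u w ⁻¹' K ⊆ quad p ∧
          volume (quad p) ≤ ENNReal.ofReal (m ^ 2 / 2) := by
  obtain ⟨W, hW, S, hS, E, hE, N, hN, hmax⟩ := exists_max4 hKc (hi.mono interior_subset)
  have hT : 0 < cr (E - W) (N - S) := by
    obtain ⟨x0, hx0⟩ := hi
    obtain ⟨ρ, hρ, hball⟩ := Metric.isOpen_iff.1 isOpen_interior x0 hx0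
    have hb : ∀ s t : ℝ, |s| < ρ → |t| < ρ → x0 + (s, t) ∈ K := by
      intro s t hs ht
      apply interior_subset
      apply hball
      rw [Metric.mem_ball, dist_eq_norm, add_sub_cancel_left, Prod.norm_def]
      simpa using ⟨hs, ht⟩
    have h2 : |ρ / 2| < ρ := by rw [abs_of_pos (by positivity)]; linarith
    have h2' : |-(ρ / 2)| < ρ := by rw [abs_neg]; exact h2
    have h3 : |(0 : ℝ)| < ρ := by simpa using hρ
    have := hmax _ (hb _ _ h2' h3) _ (hb _ _ h3 h2') _ (hb _ _ h2 h3) _ (hb _ _ h3 h2)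
    have e : cr (x0 + (ρ / 2, 0) - (x0 + (-(ρ / 2), 0))) (x0 + (0, ρ / 2) - (x0 + (0, -(ρ / 2))))
        = ρ ^ 2 := by
      simp only [cr, Prod.fst_sub, Prod.snd_sub, Prod.fst_add, Prod.snd_add]; ring
    rw [e] at this
    have : 0 < ρ ^ 2 := by positivity
    linarith
  obtain ⟨u, hu⟩ : ∃ u : ℝ × ℝ, u = (1 / 2 : ℝ) • (E - W) := ⟨_, rfl⟩
  obtain ⟨w, hw⟩ : ∃ w : ℝ × ℝ, w = (1 / 2 : ℝ) • (N - S) := ⟨_, rfl⟩
  have hD4 : cr (E - W) (N - S) = 4 * cr u w := by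
    rw [hu, hw]; simp only [cr, Prod.smul_fst, Prod.smul_snd, smul_eq_mul]; ring
  have hD : 0 < cr u w := by linarith
  have hD0 : cr u w ≠ 0 := hD.ne'
  obtain ⟨s1, hs1⟩ : ∃ s1, s1 = cr (S - W) w / cr u w := ⟨_, rfl⟩
  obtain ⟨s2, hs2⟩ : ∃ s2, s2 = cr u (S - W) / cr u w := ⟨_, rfl⟩
  have hSW : S = W + (s1 • u + s2 • w) := by
    rw [hs1, hs2]
    ext
    · simp only [Prod.fst_add, Prod.smul_fst, smul_eq_mul]
      field_simp
      simp only [cr, Prod.fst_sub, Prod.snd_sub]; ring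
    · simp only [Prod.snd_add, Prod.smul_snd, smul_eq_mul]
      field_simp
      simp only [cr, Prod.fst_sub, Prod.snd_sub]; ring
  have hEW : E = W + (2 : ℝ) • u := by
    rw [hu]; ext <;> simp
  have hNS : N = S + (2 : ℝ) • w := by
    rw [hw]; ext <;> simp
  obtain ⟨O, hO⟩ : ∃ O : ℝ × ℝ, O = W + u + (1 + s2) • w := ⟨_, rfl⟩
  have aE : aff O u w (1, -1 - s2) = E := by
    rw [hEW, hO]; ext <;> simp [aff] <;> ring
  have aW : aff O u w (-1, -1 - s2) = W := by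
    rw [hO]; ext <;> simp [aff] <;> ring
  have aN : aff O u w (s1 - 1, 1) = N := by
    rw [hNS, hSW, hO]; ext <;> simp [aff] <;> ring
  have aS : aff O u w (s1 - 1, -1) = S := by
    rw [hSW, hO]; ext <;> simp [aff] <;> ring
  have hmax' : ∀ q1 ∈ aff O u w ⁻¹' K, ∀ q2 ∈ aff O u w ⁻¹' K, ∀ q3 ∈ aff O u w ⁻¹' K,
      ∀ q4 ∈ aff O u w ⁻¹' K, cr (q3 - q1) (q4 - q2) ≤ 4 := by
    intro q1 h1 q2 h2 q3 h3 q4 h4
    have := hmax _ h1 _ h2 _ h3 _ h4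
    rw [cr_aff, hD4] at this
    have h5 : cr u w * cr (q3 - q1) (q4 - q2) ≤ cr u w * 4 := by linarith
    exact le_of_mul_le_mul_left h5 hD
  have mE : ((1 : ℝ), -1 - s2) ∈ aff O u w ⁻¹' K := by show aff _ _ _ _ ∈ K; rw [aE]; exact hE
  have mW : ((-1 : ℝ), -1 - s2) ∈ aff O u w ⁻¹' K := by show aff _ _ _ _ ∈ K; rw [aW]; exact hW
  have mN : (s1 - 1, (1 : ℝ)) ∈ aff O u w ⁻¹' K := by show aff _ _ _ _ ∈ K; rw [aN]; exact hN
  have mS : (s1 - 1, (-1 : ℝ)) ∈ aff O u w ⁻¹' K := by show aff _ _ _ _ ∈ K; rw [aS]; exact hS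
  have hbox : ∀ z ∈ aff O u w ⁻¹' K, |z.1| ≤ 1 ∧ |z.2| ≤ 1 := by
    intro z hz
    have g1 := hmax' _ mW _ mS _ hz _ mN
    have g2 := hmax' _ hz _ mS _ mE _ mN
    have g3 := hmax' _ mW _ mS _ mE _ hz
    have g4 := hmax' _ mW _ hz _ mE _ mN
    simp only [cr, Prod.fst_sub, Prod.snd_sub] at g1 g2 g3 g4
    constructor
    · rw [abs_le]; constructor <;> linarith
    · rw [abs_le]; constructor <;> linarith
  refine ⟨O, u, w, hD, hbox, ?_⟩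
  intro m hm hvm
  refine normal2 (convex_preimage_aff hK _ _ _) (isCompact_preimage_aff hKc hD0) mE mN mW mS hbox
    hmax' (hQ.preimage hD0) ?_ hm hvm
  rw [volume_preimage_aff (O := O) hD0 K] at hvol
  rw [abs_of_pos hD] at hvol ⊢
  rw [div_eq_inv_mul, ENNReal.ofReal_mul (by positivity), ENNReal.ofReal_inv_of_pos hD]
  rw [← ENNReal.div_eq_inv_mul, ENNReal.lt_div_iff_mul_lt, mul_comm]
  · exact hvol
  · left; simpa using hD
  · left; exact ENNReal.ofReal_ne_top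

end Pool.Agent.NH81.Quad
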